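import Mathlib

set_option autoImplicit false

namespace Pool.Agent.Q115.A5Sub

open Equiv

/-- the alternating group of degree five -/
abbrev A5 : Type := alternatingGroup (Fin 5)

theorem card_A5 : Nat.card A5 = 60 := by
  rw [nat_card_alternatingGroup]; simp; decide

/-- the stabilizer of a point -/
def S12 : Subgroup A5 where
  carrier := {g | (g : Perm (Fin 5)) 0 = 0}
  one_mem' := rfl
  mul_mem' := by
    intro a b ha hb
    simp only [Set.mem_ofPred_eq] at *
    simp [hb, ha]
  inv_mem' := by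
    intro a ha
    simp only [Set.mem_ofPred_eq] at *
    simp [Equiv.symm_apply_eq, ha]

/-- the stabilizer of a pair -/
def S6 : Subgroup A5 where
  carrier := {g | ((g : Perm (Fin 5)) 0 = 0 ∧ (g : Perm (Fin 5)) 1 = 1) ∨ 
    ((g : Perm (Fin 5)) 0 = 1 ∧ (g : Perm (Fin 5)) 1 = 0)}
  one_mem' := Or.inl ⟨rfl, rfl⟩
  mul_mem' := by
    intro a b ha hb
    simp only [Set.mem_ofPred_eq] at *
    rcases ha with ha | ha <;> rcases hb with hb | hb <;> simp [ha.1, ha.2, hb.1, hb.2]
  inv_mem' := by
    intro a ha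
    simp only [Set.mem_ofPred_eq] at *
    rcases ha with ha | ha <;> simp [Equiv.symm_apply_eq, ha.1, ha.2]

/-- the normalizer of a five-cycle -/
def S10 : Subgroup A5 where
  carrier := {g | (g : Perm (Fin 5)) * finRotate 5 = finRotate 5 * g ∨ 
    (g : Perm (Fin 5)) * finRotate 5 = (finRotate 5)⁻¹ * g}
  one_mem' := Or.inl rfl
  mul_mem' := by
    intro a b ha hb
    simp only [Set.mem_ofPred_eq, Subgroup.coe_mul] at *
    have hi : (a : Perm (Fin 5)) * (finRotate 5)⁻¹ = (finRotate 5)⁻¹ * a ∨ 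
        (a : Perm (Fin 5)) * (finRotate 5)⁻¹ = finRotate 5 * a := by
      rcases ha with ha | ha
      · left
        rw [mul_inv_eq_iff_eq_mul, mul_assoc, ha, ← mul_assoc]; simp
      · right
        rw [mul_inv_eq_iff_eq_mul, mul_assoc, ha, ← mul_assoc]; simp
    rcases hb with hb | hb
    · rw [mul_assoc, hb, ← mul_assoc]
      rcases ha with ha | ha
      · left; rw [ha, mul_assoc]
      · right; rw [ha, mul_assoc]
    · rw [mul_assoc, hb, ← mul_assoc]
      rcases hi with hi | hi
      · right; rw [hi, mul_assoc]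
      · left; rw [hi, mul_assoc]
  inv_mem' := by
    intro a ha
    simp only [Set.mem_ofPred_eq, Subgroup.coe_inv] at *
    rcases ha with ha | ha
    · left
      rw [inv_mul_eq_iff_eq_mul, ← mul_assoc, ha]; simp
    · right
      rw [inv_mul_eq_iff_eq_mul, ← mul_assoc]
      have : (a : Perm (Fin 5)) * (finRotate 5)⁻¹ = finRotate 5 * a := by
        rw [mul_inv_eq_iff_eq_mul, mul_assoc, ha, ← mul_assoc]; simp
      rw [this]; simp

theorem card_S12 : Nat.card S12 = 12 := by
  have h : Nat.card S12 = Fintype.card {g : A5 // (g : Perm (Fin 5)) 0 = 0} := by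
    rw [← Nat.card_eq_fintype_card]; rfl
  rw [h]; decide +kernel

theorem card_S6 : Nat.card S6 = 6 := by
  have h : Nat.card S6 = Fintype.card {g : A5 // ((g : Perm (Fin 5)) 0 = 0 ∧ (g : Perm (Fin 5)) 1 = 1) ∨ 
    ((g : Perm (Fin 5)) 0 = 1 ∧ (g : Perm (Fin 5)) 1 = 0)} := by
    rw [← Nat.card_eq_fintype_card]; rfl
  rw [h]; decide +kernel

theorem card_S10 : Nat.card S10 = 10 := by
  have h : Nat.card S10 = Fintype.card {g : A5 // (g : Perm (Fin 5)) * finRotate 5 = finRotate 5 * g ∨ 
    (g : Perm (Fin 5)) * finRotate 5 = (finRotate 5)⁻¹ * g} := by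
    rw [← Nat.card_eq_fintype_card]; rfl
  rw [h]; decide +kernel

theorem exists_sub (n : ℕ) (hn : n ∈ ({2, 3, 4, 5, 6, 10, 12} : Finset ℕ)) :
    ∃ P : Subgroup A5, Nat.card P = n := by
  have : Fact (Nat.Prime 2) := ⟨Nat.prime_two⟩
  have : Fact (Nat.Prime 3) := ⟨Nat.prime_three⟩
  have : Fact (Nat.Prime 5) := ⟨Nat.prime_five⟩
  simp only [Finset.mem_insert, Finset.mem_singleton] at hn
  rcases hn with rfl | rfl | rfl | rfl | rfl | rfl | rfl
  · exact Sylow.exists_subgroup_card_pow_prime 2 (n := 1) (by rw [card_A5]; norm_num)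
  · exact Sylow.exists_subgroup_card_pow_prime 3 (n := 1) (by rw [card_A5]; norm_num)
  · exact Sylow.exists_subgroup_card_pow_prime 2 (n := 2) (by rw [card_A5]; norm_num)
  · exact Sylow.exists_subgroup_card_pow_prime 5 (n := 1) (by rw [card_A5]; norm_num)
  · exact ⟨S6, card_S6⟩
  · exact ⟨S10, card_S10⟩
  · exact ⟨S12, card_S12⟩

theorem index_ge (P : Subgroup A5) (hP : P ≠ ⊤) : 5 ≤ P.index := by
  by_contra hlt
  push Not at hlt
  have hn : P.normalCore = ⊥ := by
    rcases (inferInstance : P.normalCore.Normal).eq_bot_or_eq_top with h | h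
    · exact h
    · exfalso
      exact hP (top_le_iff.1 (h ▸ P.normalCore_le))
  have h1 : P.normalCore.index ∣ P.index.factorial := by
    rw [Subgroup.normalCore_eq_ker, Subgroup.index_ker, Subgroup.index]
    have := Subgroup.card_subgroup_dvd_card (MulAction.toPermHom A5 (A5 ⧸ P)).range
    rwa [Nat.card_perm] at this
  rw [hn, Subgroup.index_bot, card_A5] at h1
  interval_cases hi : P.index
  · exact Subgroup.index_ne_zero_of_finite hi
  all_goals revert h1; decide

theorem card_mem (P : Subgroup A5) (h1 : P ≠ ⊥) (h2 : P ≠ ⊤) : 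
    Nat.card P ∈ ({2, 3, 4, 5, 6, 10, 12} : Finset ℕ) := by
  have h3 := index_ge P h2
  have h4 := P.card_mul_index
  rw [card_A5] at h4
  have h5 : Nat.card P ≠ 1 := by
    intro h; exact h1 (Subgroup.card_eq_one.1 h)
  have h6 : Nat.card P ≤ 12 := by nlinarith
  have h7 : Nat.card P ∣ 60 := ⟨_, h4.symm⟩
  have h8 : 0 < Nat.card P := Nat.card_pos
  generalize Nat.card P = c at *
  interval_cases c <;> first | decide | (exfalso; revert h7; decide) | omega

end Pool.Agent.Q115.A5Sub
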