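import Mathlib

set_option autoImplicit false
set_option linter.unusedSectionVars false
set_option linter.unusedSimpArgs false

namespace Pool.Agent.Q115.McLain

/-- the vector space with basis indexed by the rationals -/
abbrev U : Type := ℚ →₀ ZMod 2

abbrev End : Type := Module.End (ZMod 2) U

theorem two_end (a : End) : a + a = 0 := by
  apply LinearMap.ext
  intro u
  apply Finsupp.ext
  intro q
  simp only [LinearMap.add_apply, Finsupp.add_apply, LinearMap.zero_apply, Finsupp.zero_apply]
  exact CharTwo.add_self_eq_zero _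

/-- basis vector -/
noncomputable abbrev v (q : ℚ) : U := Finsupp.single q 1

/-- the matrix unit -/
noncomputable def E (i j : ℚ) : End := (Finsupp.lsingle j) ∘ₗ (Finsupp.lapply i)

theorem E_apply (i j : ℚ) (u : U) : E i j u = Finsupp.single j (u i) := rfl

theorem E_mul (i j k l : ℚ) (h : j ≠ i) : E i k * E l j = 0 := by
  apply LinearMap.ext
  intro u
  rw [Module.End.mul_apply, E_apply, E_apply, Finsupp.single_eq_of_ne h.symm]
  simp

theorem E_mul' (i k l : ℚ) : E k l * E i k = E i l := by
  apply LinearMap.ext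
  intro u
  rw [Module.End.mul_apply, E_apply, E_apply, E_apply, Finsupp.single_eq_same]

/-- transvections -/
noncomputable def t (i j : ℚ) (h : i ≠ j) : (End)ˣ where
  val := 1 + E i j
  inv := 1 + E i j
  val_inv := by
    have h1 : E i j * E i j = 0 := E_mul i j j i h.symm
    calc (1 + E i j) * (1 + E i j) = 1 + (E i j + E i j) + E i j * E i j := by noncomm_ring
      _ = 1 := by rw [h1, two_end]; simp
  inv_val := by
    have h1 : E i j * E i j = 0 := E_mul i j j i h.symm
    calc (1 + E i j) * (1 + E i j) = 1 + (E i j + E i j) + E i j * E i j := by noncomm_ring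
      _ = 1 := by rw [h1, two_end]; simp

theorem t_val (i j : ℚ) (h : i ≠ j) : ((t i j h : (End)ˣ) : End) = 1 + E i j := rfl

theorem t_inv (i j : ℚ) (h : i ≠ j) : (t i j h)⁻¹ = t i j h := rfl

theorem t_sq (i j : ℚ) (h : i ≠ j) : t i j h * t i j h = 1 := by
  have := mul_inv_cancel (t i j h)
  rwa [t_inv] at this

theorem ring_aux {R : Type} [Ring R] (A B : R) (e1 : A * B = 0) (e3 : A * A = 0)
    (e4 : B * B = 0) (e5 : A + A = 0) (e6 : B + B = 0) :
    (1 + A) * (1 + B) * ((1 + A) * (1 + B)) = 1 + B * A := by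
  have h1 : (1 + A) * (1 + B) = 1 + A + B := by
    rw [mul_add, add_mul, add_mul, e1]; simp
  rw [h1]
  have h2 : (1 + A + B) * (1 + A + B) = 1 + (A + A) + (B + B) + A * A + A * B + B * A + B * B := by
    noncomm_ring
  rw [h2, e1, e3, e4, e5, e6]
  simp

theorem t_comm {i k l : ℚ} (h1 : i < k) (h2 : k < l) :
    t i k h1.ne * t k l h2.ne * (t i k h1.ne * t k l h2.ne) = t i l (h1.trans h2).ne := by
  apply Units.ext
  simp only [Units.val_mul, t_val]
  rw [ring_aux (E i k) (E k l) (E_mul i l k k (h1.trans h2).ne') (E_mul i k k i h1.ne')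
    (E_mul k l l k h2.ne') (two_end _) (two_end _), E_mul' i k l]

theorem t_comm' {i j k l : ℚ} (h1 : i ≠ j) (h2 : k ≠ l) (h4 : k ≠ j) (h5 : l ≠ i) :
    t i j h1 * t k l h2 = t k l h2 * t i j h1 := by
  apply Units.ext
  simp only [Units.val_mul, t_val]
  have e1 : E i j * E k l = 0 := E_mul i l j k h5
  have e2 : E k l * E i j = 0 := E_mul k j l i (Ne.symm h4)
  calc (1 + E i j) * (1 + E k l) = 1 + E i j + E k l + E i j * E k l := by noncomm_ring
    _ = 1 + E i j + E k l + E k l * E i j := by rw [e1, e2]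
    _ = _ := by noncomm_ring

theorem t_apply (i j : ℚ) (h : i ≠ j) (u : U) : ((t i j h : (End)ˣ) : End) u = u + Finsupp.single j (u i) := rfl

/-- `a` maps each basis vector `v q` into the span of the `v j` with `r q j` -/
def rs (r : ℚ → ℚ → Prop) (a : End) : Prop :=
  ∀ q, a (v q) ∈ Finsupp.supported (ZMod 2) (ZMod 2) {j | r q j}

theorem rs_apply {r : ℚ → ℚ → Prop} {a : End} (ha : rs r a) {A B : Set ℚ} {u : U}
    (hu : u ∈ Finsupp.supported (ZMod 2) (ZMod 2) A) (hB : ∀ q ∈ A, ∀ j, r q j → j ∈ B) :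
    a u ∈ Finsupp.supported (ZMod 2) (ZMod 2) B := by
  have h1 : u = u.sum (fun q c => c • v q) := by
    conv_lhs => rw [← Finsupp.sum_single u]
    refine Finsupp.sum_congr (fun q _ => ?_)
    rw [Finsupp.smul_single, smul_eq_mul, mul_one]
  rw [h1, Finsupp.sum, map_sum]
  refine Submodule.sum_mem _ (fun q hq => ?_)
  rw [map_smul]
  refine Submodule.smul_mem _ _ ?_
  have hqA : q ∈ A := hu hq
  exact Finsupp.supported_mono (fun j hj => hB q hqA j hj) (ha q)

theorem rs.mul {r s w : ℚ → ℚ → Prop} {a b : End} (ha : rs r a) (hb : rs s b)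
    (h : ∀ i j k, s i j → r j k → w i k) : rs w (a * b) := by
  intro q
  rw [Module.End.mul_apply]
  exact rs_apply ha (hb q) (fun j hj k hk => h q j k hj hk)

theorem rs.add {r : ℚ → ℚ → Prop} {a b : End} (ha : rs r a) (hb : rs r b) : rs r (a + b) := by
  intro q
  rw [LinearMap.add_apply]
  exact Submodule.add_mem _ (ha q) (hb q)

theorem rs.mono {r s : ℚ → ℚ → Prop} {a : End} (ha : rs r a) (h : ∀ i j, r i j → s i j) :
    rs s a := fun q => Finsupp.supported_mono (fun j hj => h q j hj) (ha q)

theorem rs_one {r : ℚ → ℚ → Prop} (h : ∀ i, r i i) : rs r 1 := by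
  intro q
  rw [Module.End.one_apply]
  exact Finsupp.single_mem_supported _ _ (h q)

theorem rs_E {r : ℚ → ℚ → Prop} {i j : ℚ} (h : r i j) : rs r (E i j) := by
  intro q
  rw [E_apply]
  by_cases hq : q = i
  · subst hq
    rw [Finsupp.single_eq_same]
    exact Finsupp.single_mem_supported _ _ h
  · rw [Finsupp.single_eq_of_ne (Ne.symm hq), Finsupp.single_zero]
    exact Submodule.zero_mem _

theorem rs_zero {r : ℚ → ℚ → Prop} : rs r 0 := fun q => by simp

/-- the strict relation attached to a level function -/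
def lt (l : ℚ → ℕ) (i j : ℚ) : Prop := i < j ∧ l i < l j

/-- The unipotent automorphisms attached to a level function. -/
def Uni (l : ℚ → ℕ) : Subgroup (End)ˣ where
  carrier := {x | rs (lt l) ((x : End) + 1) ∧ rs (lt l) (((x⁻¹ : (End)ˣ) : End) + 1)}
  one_mem' := by
    constructor
    · simp only [Units.val_one]; rw [two_end]; exact rs_zero
    · simp only [inv_one, Units.val_one]; rw [two_end]; exact rs_zero
  mul_mem' := by
    have key : ∀ a b : End, rs (lt l) (a + 1) → rs (lt l) (b + 1) → rs (lt l) (a * b + 1) := by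
      intro a b ha hb
      have e : a * b + 1 = (a + 1) * (b + 1) + ((a + 1) + (b + 1)) := by
        calc a * b + 1 = a * b + 1 + (a + a) + (b + b) + (1 + 1) := by
              rw [two_end, two_end, two_end]; simp
          _ = _ := by noncomm_ring
      rw [e]
      exact (ha.mul hb (fun i j k h1 h2 => ⟨h1.1.trans h2.1, h1.2.trans h2.2⟩)).add (ha.add hb)
    rintro a b ⟨h1, h2⟩ ⟨h3, h4⟩
    refine ⟨?_, ?_⟩
    · rw [Units.val_mul]; exact key _ _ h1 h3
    · rw [mul_inv_rev, Units.val_mul]; exact key _ _ h4 h2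
  inv_mem' := by
    rintro a ⟨h1, h2⟩
    exact ⟨h2, by rwa [inv_inv]⟩

theorem Uni_mono {l l' : ℚ → ℕ} (hm : Monotone l') : Uni l ≤ Uni (fun q => l q + l' q) := by
  rintro x ⟨h1, h2⟩
  have key : ∀ i j, lt l i j → lt (fun q => l q + l' q) i j := fun i j h =>
    ⟨h.1, by have := hm h.1.le; have := h.2; simp only; omega⟩
  exact ⟨h1.mono key, h2.mono key⟩

theorem t_mem_Uni {i j : ℚ} (h : i < j) : t i j h.ne ∈ Uni (fun q => if j ≤ q then 1 else 0) := by
  have h1 : rs (lt (fun q => if j ≤ q then 1 else 0)) ((t i j h.ne : End) + 1) := by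
    rw [t_val]
    have : (1 : End) + E i j + 1 = E i j := by
      calc (1 : End) + E i j + 1 = E i j + (1 + 1) := by abel
        _ = E i j := by rw [two_end]; simp
    rw [this]
    refine rs_E ⟨h, ?_⟩
    simp [h]
  exact ⟨h1, h1⟩

/-! ### The filtration -/

/-- `a` maps `V j` into `V (j + k)` for all `j` -/
def inI (V : ℕ → Submodule (ZMod 2) U) (k : ℕ) (a : End) : Prop := ∀ j, ∀ u ∈ V j, a u ∈ V (j + k)

section filt

variable {V : ℕ → Submodule (ZMod 2) U}

theorem inI.mul {j k : ℕ} {a b : End} (ha : inI V j a) (hb : inI V k b) : inI V (k + j) (a * b) := by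
  intro i u hu
  rw [Module.End.mul_apply, ← add_assoc]
  exact ha _ _ (hb i u hu)

theorem inI.add {k : ℕ} {a b : End} (ha : inI V k a) (hb : inI V k b) : inI V k (a + b) := by
  intro i u hu
  rw [LinearMap.add_apply]
  exact Submodule.add_mem _ (ha i u hu) (hb i u hu)

theorem inI_one : inI V 0 1 := fun _ _ hu => hu

end filt

end Pool.Agent.Q115.McLain
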