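import Mathlib
import Pool.Agent.Q115.McLain

set_option autoImplicit false
set_option linter.unusedSectionVars false
set_option linter.unusedSimpArgs false

namespace Pool.Agent.Q115.McGam

open Pool.Agent.Q115.McLain

noncomputable section

/-- Pairs of a function `U → ZMod 2` and an automorphism of `U`. -/
@[ext]
structure Gam : Type where
  f : U → ZMod 2
  x : (End)ˣ

instance : Mul Gam := ⟨fun a b => ⟨fun u => a.f u + b.f (((a.x⁻¹ : (End)ˣ) : End) u), a.x * b.x⟩⟩
instance : One Gam := ⟨⟨0, 1⟩⟩
instance : Inv Gam := ⟨fun a => ⟨fun u => a.f ((a.x : End) u), a.x⁻¹⟩⟩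

theorem mul_f (a b : Gam) (u : U) : (a * b).f u = a.f u + b.f (((a.x⁻¹ : (End)ˣ) : End) u) := rfl
theorem mul_x (a b : Gam) : (a * b).x = a.x * b.x := rfl
theorem one_f (u : U) : (1 : Gam).f u = 0 := rfl
theorem one_x : (1 : Gam).x = 1 := rfl
theorem inv_f (a : Gam) (u : U) : (a⁻¹).f u = a.f ((a.x : End) u) := rfl
theorem inv_x (a : Gam) : (a⁻¹).x = a.x⁻¹ := rfl

instance : Group Gam := Group.ofLeftAxioms
  (by
    intro a b c
    refine Gam.ext (funext fun u => ?_) ?_
    · simp only [mul_f, mul_x, mul_inv_rev, Units.val_mul, Module.End.mul_apply, add_assoc]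
    · simp only [mul_x, mul_assoc])
  (by
    intro a
    refine Gam.ext (funext fun u => ?_) ?_
    · simp only [mul_f, one_f, one_x, inv_one, Units.val_one, Module.End.one_apply, zero_add]
    · simp only [mul_x, one_x, one_mul])
  (by
    intro a
    refine Gam.ext (funext fun u => ?_) ?_
    · simp only [mul_f, inv_f, inv_x, inv_inv, one_f]
      exact CharTwo.add_self_eq_zero _
    · simp only [mul_x, inv_x, one_x, inv_mul_cancel])

/-- the projection -/
def pr : Gam →* (End)ˣ where
  toFun a := a.x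
  map_one' := rfl
  map_mul' _ _ := rfl

/-- the operator `h ↦ h + h ∘ m⁻¹` -/
def D (m : (End)ˣ) (h : U → ZMod 2) : U → ZMod 2 := fun u => h u + h (((m⁻¹ : (End)ˣ) : End) u)

/-- the conjugate of the automorphism `x` by the function `h` -/
def c (h : U → ZMod 2) : (End)ˣ →* Gam where
  toFun x := ⟨D x h, x⟩
  map_one' := by
    refine Gam.ext (funext fun u => ?_) rfl
    simp only [D, inv_one, Units.val_one, Module.End.one_apply]
    exact CharTwo.add_self_eq_zero _
  map_mul' x y := by
    refine Gam.ext (funext fun u => ?_) rfl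
    simp only [D, mul_f, mul_inv_rev, Units.val_mul, Module.End.mul_apply]
    have := CharTwo.add_self_eq_zero (h (((x⁻¹ : (End)ˣ) : End) u))
    linear_combination -this

/-- the function as a group element -/
def io (h : U → ZMod 2) : Gam := ⟨h, 1⟩

theorem c_eq (h : U → ZMod 2) (x : (End)ˣ) : c h x = io h * ⟨0, x⟩ * (io h)⁻¹ := by
  refine Gam.ext (funext fun u => ?_) ?_
  · simp [c, D, io, mul_f, mul_x, inv_f]
  · simp [c, io, mul_x, inv_x]

/-- the generators -/
def gens : Set Gam := {g | ∃ (w : U →₀ ZMod 2) (i j : ℚ) (h : i < j), g = c w (t i j h.ne)}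

/-- our group -/
def G : Subgroup Gam := Subgroup.closure gens

theorem gen_mem (w : U →₀ ZMod 2) {i j : ℚ} (h : i < j) : c w (t i j h.ne) ∈ G :=
  Subgroup.subset_closure ⟨w, i, j, h, rfl⟩

theorem lin_mem {i j : ℚ} (h : i < j) : c 0 (t i j h.ne) ∈ G := by
  have := gen_mem 0 h
  simpa using this

theorem c_zero (x : (End)ˣ) : c 0 x = ⟨0, x⟩ := by
  refine Gam.ext (funext fun u => ?_) rfl
  simp [c, D]

/-! ### Pseudocentrality -/

theorem w_inv {w : U →₀ ZMod 2} {k l : ℚ} (hkl : k ≠ l)
    (hk : k ∉ w.support.biUnion (fun u => u.support)) (u : U) :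
    w (((t k l hkl : (End)ˣ) : End) u) = w u := by
  have key : ∀ u' ∈ w.support, ((t k l hkl : (End)ˣ) : End) u' = u' := by
    intro u' hu'
    rw [t_apply]
    have : u' k = 0 := by
      by_contra hne
      exact hk (Finset.mem_biUnion.2 ⟨u', hu', Finsupp.mem_support_iff.2 hne⟩)
    rw [this, Finsupp.single_zero, add_zero]
  by_cases hu : u ∈ w.support
  · rw [key u hu]
  · by_cases hu2 : ((t k l hkl : (End)ˣ) : End) u ∈ w.support
    · have h1 := key _ hu2
      have h2 : ((t k l hkl : (End)ˣ) : End) (((t k l hkl : (End)ˣ) : End) u) = u := by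
        rw [← Module.End.mul_apply, ← Units.val_mul, t_sq]; rfl
      rw [h2] at h1
      rw [← h1]
    · rw [Finsupp.notMem_support_iff.1 hu, Finsupp.notMem_support_iff.1 hu2]

theorem c_w_eq {w : U →₀ ZMod 2} {k l : ℚ} (hkl : k ≠ l)
    (hk : k ∉ w.support.biUnion (fun u => u.support)) : c w (t k l hkl) = c 0 (t k l hkl) := by
  refine Gam.ext (funext fun u => ?_) rfl
  simp only [c, MonoidHom.coe_mk, OneHom.coe_mk, D, t_inv, Pi.zero_apply, add_zero]
  rw [w_inv hkl hk]
  exact CharTwo.add_self_eq_zero _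

theorem commute_gen {w : U →₀ ZMod 2} {i j k l : ℚ} (hij : i < j) (hkl : k ≠ l)
    (hk : k ∉ w.support.biUnion (fun u => u.support)) (h4 : k ≠ j) (h5 : l ≠ i) :
    Commute (c 0 (t k l hkl)) (c w (t i j hij.ne)) := by
  rw [← c_w_eq hkl hk]
  change c w _ * c w _ = c w _ * c w _
  rw [← map_mul, ← map_mul, t_comm' hij.ne hkl h4 h5]

/-- every element of `G` commutes with `t k l` for `k`, `l` outside a finite set -/
theorem exists_commute (g : Gam) (hg : g ∈ G) : ∃ S : Finset ℚ, ∀ k l (hkl : k ≠ l), k ∉ S →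
    l ∉ S → Commute (c 0 (t k l hkl)) g := by
  classical
  induction hg using Subgroup.closure_induction with
  | mem g hg =>
    obtain ⟨w, i, j, h, rfl⟩ := hg
    refine ⟨w.support.biUnion (fun u => u.support) ∪ {i, j}, fun k l hkl hk hl => ?_⟩
    simp only [Finset.mem_union, Finset.mem_insert, Finset.mem_singleton, not_or] at hk hl
    exact commute_gen h hkl hk.1 hk.2.2 hl.2.1
  | one => exact ⟨∅, fun _ _ _ _ _ => Commute.one_right _⟩
  | mul a b _ _ ha hb =>
    obtain ⟨S, hS⟩ := ha
    obtain ⟨T, hT⟩ := hb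
    refine ⟨S ∪ T, fun k l hkl hk hl => ?_⟩
    simp only [Finset.mem_union, not_or] at hk hl
    exact (hS k l hkl hk.1 hl.1).mul_right (hT k l hkl hk.2 hl.2)
  | inv a _ ha =>
    obtain ⟨S, hS⟩ := ha
    exact ⟨S, fun k l hkl hk hl => (hS k l hkl hk hl).inv_right⟩

theorem exists_gap (S : Finset ℚ) {i j : ℚ} (h : i < j) :
    ∃ k l : ℚ, i < k ∧ k < l ∧ l < j ∧ k ∉ S ∧ l ∉ S := by
  obtain ⟨k, ⟨hk1, hk2⟩, hk3⟩ := ((Set.Ioo_infinite h).sdiff S.finite_toSet).nonempty
  obtain ⟨l, ⟨hl1, hl2⟩, hl3⟩ := ((Set.Ioo_infinite hk2).sdiff S.finite_toSet).nonempty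
  exact ⟨k, l, hk1, hl1, hl2, fun h => hk3 h, fun h => hl3 h⟩

theorem pseudocentral (g y : G) :
    y ∈ Subgroup.normalClosure (Subgroup.centralizer {g} : Set G) := by
  classical
  set N := Subgroup.normalClosure (Subgroup.centralizer {g} : Set G) with hN
  have hNn : N.Normal := Subgroup.normalClosure_normal
  obtain ⟨S, hS⟩ := exists_commute g.1 g.2
  have key : ∀ z (hz : z ∈ G), (⟨z, hz⟩ : G) ∈ N := by
    intro z hz
    induction hz using Subgroup.closure_induction with
    | mem z hz =>
      obtain ⟨w, i, j, h, rfl⟩ := hz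
      obtain ⟨k, l, h1, h2, h3, hk, hl⟩ := exists_gap (S ∪ w.support.biUnion (fun u => u.support)) h
      simp only [Finset.mem_union, not_or] at hk hl
      -- the elements
      set a : G := ⟨c w (t i k h1.ne), gen_mem w h1⟩ with ha
      set b : G := ⟨c 0 (t k l h2.ne), lin_mem h2⟩ with hb
      set d : G := ⟨c w (t l j h3.ne), gen_mem w h3⟩ with hd
      have hbN : b ∈ N := by
        apply Subgroup.subset_normalClosure
        rw [SetLike.mem_coe, Subgroup.mem_centralizer_singleton_iff]
        exact Subtype.ext (hS k l h2.ne hk.1 hl.1)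
      have hb2 : (b : Gam) = c w (t k l h2.ne) := (c_w_eq h2.ne hk.2).symm
      have haa : a * a = 1 := Subtype.ext (by
        change c w _ * c w _ = 1
        rw [← map_mul, t_sq, map_one])
      have hdd : d * d = 1 := Subtype.ext (by
        change c w _ * c w _ = 1
        rw [← map_mul, t_sq, map_one])
      have h5 : a * b * (a * b) ∈ N := by
        have : a * b * (a * b) = a * b * a⁻¹ * b := by
          rw [← eq_inv_of_mul_eq_one_left haa]; group
        rw [this]
        exact N.mul_mem (hNn.conj_mem b hbN a) hbN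
      have h6 : (a * b * (a * b)) * d * ((a * b * (a * b)) * d) ∈ N := by
        have : (a * b * (a * b)) * d * ((a * b * (a * b)) * d) =
            (a * b * (a * b)) * (d * (a * b * (a * b)) * d⁻¹) := by
          rw [← eq_inv_of_mul_eq_one_left hdd]; group
        rw [this]
        exact N.mul_mem h5 (hNn.conj_mem _ h5 d)
      have h7 : (⟨c w (t i j h.ne), Subgroup.subset_closure ⟨w, i, j, h, rfl⟩⟩ : G) =
          (a * b * (a * b)) * d * ((a * b * (a * b)) * d) := by
        apply Subtype.ext
        change c w (t i j h.ne) = (c w (t i k h1.ne) * (b : Gam) * (c w (t i k h1.ne) * (b : Gam))) *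
          c w (t l j h3.ne) * ((c w (t i k h1.ne) * (b : Gam) * (c w (t i k h1.ne) * (b : Gam))) *
          c w (t l j h3.ne))
        rw [hb2]
        simp only [← map_mul]
        rw [t_comm h1 h2, t_comm (h1.trans h2) h3]
      rw [h7]
      exact h6
    | one => exact N.one_mem
    | mul a b ha hb iha ihb => exact N.mul_mem iha ihb
    | inv a ha iha => exact N.inv_mem iha
  exact key y.1 y.2

end

end Pool.Agent.Q115.McGam
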