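import Mathlib
import Pool.Agent.Q115.McGam

set_option autoImplicit false
set_option linter.unusedSectionVars false
set_option linter.unusedSimpArgs false

namespace Pool.Agent.Q115.McBaer

open Pool.Agent.Q115.McLain Pool.Agent.Q115.McGam

noncomputable section

/-- one step of the subnormal chain -/
theorem step {H : Type} [Group H] (g : H) (C C' : Subgroup H) (h1 : C' ≤ C)
    (h3 : ∀ a ∈ C, ∀ d ∈ C', a * d * a⁻¹ ∈ C') (h4 : ∀ a ∈ C, a * g * a⁻¹ * g⁻¹ ∈ C')
    (hs : (C ⊔ Subgroup.zpowers g).IsSubnormal) : (C' ⊔ Subgroup.zpowers g).IsSubnormal := by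
  refine Subgroup.IsSubnormal.step _ _ (sup_le_sup_right h1 _) hs
    (Subgroup.normal_subgroupOf_of_le_normalizer ?_)
  set D := C' ⊔ Subgroup.zpowers g with hD
  have key : ∀ a ∈ C, ∀ h ∈ D, a * h * a⁻¹ ∈ D := by
    intro a ha
    have : D.map (MulAut.conj a).toMonoidHom ≤ D := by
      rw [hD, Subgroup.map_sup, MonoidHom.map_zpowers]
      refine sup_le ?_ ?_
      · rintro _ ⟨d, hd, rfl⟩
        exact (le_sup_left : C' ≤ _) (h3 a ha d hd)
      · rw [Subgroup.zpowers_le]
        change a * g * a⁻¹ ∈ _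
        have h5 : a * g * a⁻¹ = (a * g * a⁻¹ * g⁻¹) * g := by group
        rw [h5]
        exact Subgroup.mul_mem _ ((le_sup_left : C' ≤ _) (h4 a ha))
          ((le_sup_right : Subgroup.zpowers g ≤ _) (Subgroup.mem_zpowers g))
    intro h hh
    exact this ⟨h, hh, rfl⟩
  refine sup_le ?_ ((le_sup_right : Subgroup.zpowers g ≤ D).trans Subgroup.le_normalizer)
  intro a ha
  rw [Subgroup.mem_normalizer_iff]
  intro h
  refine ⟨key a ha h, fun hh => ?_⟩
  have := key a⁻¹ (C.inv_mem ha) _ hh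
  have h5 : a⁻¹ * (a * h * a⁻¹) * a⁻¹⁻¹ = h := by group
  rwa [h5] at this

section filt

variable {V : ℕ → Submodule (ZMod 2) U}

/-- the automorphisms congruent to one modulo the `k`-th ideal -/
def St (V : ℕ → Submodule (ZMod 2) U) (hV : Antitone V) (k : ℕ) : Subgroup (End)ˣ where
  carrier := {x | inI V k ((x : End) + 1) ∧ inI V k (((x⁻¹ : (End)ˣ) : End) + 1)}
  one_mem' := by
    constructor
    · simp only [Units.val_one]; rw [two_end]; exact fun _ _ _ => Submodule.zero_mem _
    · simp only [inv_one, Units.val_one]; rw [two_end]; exact fun _ _ _ => Submodule.zero_mem _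
  mul_mem' := by
    have key : ∀ a b : End, inI V k (a + 1) → inI V k (b + 1) → inI V k (a * b + 1) := by
      intro a b ha hb
      have e : a * b + 1 = (a + 1) * (b + 1) + ((a + 1) + (b + 1)) := by
        calc a * b + 1 = a * b + 1 + (a + a) + (b + b) + (1 + 1) := by
              rw [two_end, two_end, two_end]; simp
          _ = _ := by noncomm_ring
      rw [e]
      refine inI.add ?_ (ha.add hb)
      intro j u hu
      exact hV (by omega) ((ha.mul hb) j u hu)
    rintro a b ⟨h1, h2⟩ ⟨h3, h4⟩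
    refine ⟨?_, ?_⟩
    · rw [Units.val_mul]; exact key _ _ h1 h3
    · rw [mul_inv_rev, Units.val_mul]; exact key _ _ h4 h2
  inv_mem' := by
    rintro a ⟨h1, h2⟩
    exact ⟨h2, by rwa [inv_inv]⟩

theorem inI_of_St {hV : Antitone V} {k : ℕ} {x : (End)ˣ} (h : x ∈ St V hV k) : inI V 0 (x : End) := by
  have e : (x : End) = ((x : End) + 1) + 1 := by
    rw [add_assoc, two_end]; simp
  rw [e]
  refine inI.add ?_ inI_one
  intro j u hu
  exact hV (by omega) (h.1 j u hu)

theorem St_succ_le {hV : Antitone V} (k : ℕ) : St V hV (k + 1) ≤ St V hV k := by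
  rintro x ⟨h1, h2⟩
  exact ⟨fun j u hu => hV (by omega) (h1 j u hu), fun j u hu => hV (by omega) (h2 j u hu)⟩

theorem inI_conj {k : ℕ} {x y x' : End} (hx : inI V 0 x) (hx' : inI V 0 x') (hxx : x * x' = 1)
    (hy : inI V k (y + 1)) : inI V k (x * y * x' + 1) := by
  have e : x * y * x' + 1 = x * (y + 1) * x' := by
    rw [mul_add, add_mul, mul_one, hxx]
  rw [e]
  have := (hx.mul hy).mul hx'
  simpa using this

theorem St_conj {hV : Antitone V} {k : ℕ} {x y : (End)ˣ} (hx : x ∈ St V hV 0)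
    (hy : y ∈ St V hV k) : x * y * x⁻¹ ∈ St V hV k := by
  have hx1 := inI_of_St hx
  have hx2 := inI_of_St ((St V hV 0).inv_mem hx)
  refine ⟨?_, ?_⟩
  · rw [Units.val_mul, Units.val_mul]
    exact inI_conj hx1 hx2 (by rw [← Units.val_mul, mul_inv_cancel]; rfl) hy.1
  · have e : (x * y * x⁻¹)⁻¹ = x * y⁻¹ * x⁻¹ := by group
    rw [e, Units.val_mul, Units.val_mul]
    exact inI_conj hx1 hx2 (by rw [← Units.val_mul, mul_inv_cancel]; rfl) hy.2

theorem inI_comm {k : ℕ} {x m x' m' : End} (hx : inI V k (x + 1)) (hm : inI V 1 (m + 1))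
    (hx' : inI V 0 x') (hm' : inI V 0 m') (e1 : x * x' = 1) (e2 : m * m' = 1) :
    inI V (k + 1) (x * m * x' * m' + 1) := by
  have e : x * m * x' * m' + 1 = ((x + 1) * (m + 1) + (m + 1) * (x + 1)) * x' * m' := by
    have h1 : (x + 1) * (m + 1) + (m + 1) * (x + 1) = x * m + m * x + ((x + x) + (m + m) + (1 + 1)) := by
      noncomm_ring
    rw [h1]
    simp only [two_end, add_zero]
    rw [add_mul, add_mul, mul_assoc m x x', e1, mul_one, e2]
  rw [e]
  have h1 : inI V (k + 1) ((x + 1) * (m + 1) + (m + 1) * (x + 1)) := by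
    refine inI.add ?_ ?_
    · have := hx.mul hm
      rwa [add_comm] at this
    · exact hm.mul hx
  have := (h1.mul hx').mul hm'
  simpa using this

theorem St_comm {hV : Antitone V} {k : ℕ} {x m : (End)ˣ} (hx : x ∈ St V hV k)
    (hm : m ∈ St V hV 1) : x * m * x⁻¹ * m⁻¹ ∈ St V hV (k + 1) := by
  have hx2 := inI_of_St ((St V hV k).inv_mem hx)
  have hm2 := inI_of_St ((St V hV 1).inv_mem hm)
  have ex : (x : End) * ((x⁻¹ : (End)ˣ) : End) = 1 := by rw [← Units.val_mul, mul_inv_cancel]; rfl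
  have em : (m : End) * ((m⁻¹ : (End)ˣ) : End) = 1 := by rw [← Units.val_mul, mul_inv_cancel]; rfl
  refine ⟨?_, ?_⟩
  · rw [Units.val_mul, Units.val_mul, Units.val_mul]
    exact inI_comm hx.1 hm.1 hx2 hm2 ex em
  · have e : (x * m * x⁻¹ * m⁻¹)⁻¹ = m * x * m⁻¹ * x⁻¹ := by group
    rw [e, Units.val_mul, Units.val_mul, Units.val_mul]
    have e : (m : End) * x * ((m⁻¹ : (End)ˣ) : End) * ((x⁻¹ : (End)ˣ) : End) + 1 =
        (((x : End) + 1) * (m + 1) + (m + 1) * (x + 1)) * ((m⁻¹ : (End)ˣ) : End) *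
          ((x⁻¹ : (End)ˣ) : End) := by
      have h1 : ((x : End) + 1) * (m + 1) + (m + 1) * (x + 1) =
          x * m + m * x + (((x : End) + x) + (m + m) + (1 + 1)) := by
        noncomm_ring
      rw [h1]
      simp only [two_end, add_zero]
      rw [add_mul, add_mul, mul_assoc (x : End) m, em, mul_one, ex, add_comm]
    rw [e]
    have h1 : inI V (k + 1) (((x : End) + 1) * (m + 1) + (m + 1) * (x + 1)) := by
      refine inI.add ?_ ?_
      · have := hx.1.mul hm.1
        rwa [add_comm] at this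
      · exact hm.1.mul hx.1
    have := (h1.mul hm2).mul hx2
    simpa using this

end filt

/-- the filtration attached to a level function -/
def Vl (l : ℚ → ℕ) (k : ℕ) : Submodule (ZMod 2) U :=
  Finsupp.supported (ZMod 2) (ZMod 2) {q | k ≤ l q}

theorem Vl_anti (l : ℚ → ℕ) : Antitone (Vl l) := fun _ _ h =>
  Finsupp.supported_mono (fun _ hq => le_trans h hq)

theorem Vl_zero (l : ℚ → ℕ) : Vl l 0 = ⊤ := by
  rw [Vl]
  have : {q : ℚ | 0 ≤ l q} = Set.univ := by ext; simp
  rw [this, Finsupp.supported_univ]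

theorem Vl_top {l : ℚ → ℕ} {n : ℕ} (h : ∀ q, l q ≤ n) : Vl l (n + 1) = ⊥ := by
  rw [Vl]
  have : {q : ℚ | n + 1 ≤ l q} = ∅ := by
    ext q; simp only [Set.mem_ofPred_eq, Set.mem_empty_iff_false, iff_false]
    have := h q; omega
  rw [this, Finsupp.supported_empty]

theorem inI_of_rs {l : ℚ → ℕ} {a : End} (h : rs (lt l) a) : inI (Vl l) 1 a := by
  intro j u hu
  exact rs_apply h hu (fun q hq i hi => by
    have := hi.2
    simp only [Set.mem_ofPred_eq] at *
    omega)

theorem inI_zero_of_rs {l l' : ℚ → ℕ} (hl : Monotone l) {a : End} (h : rs (lt l') a) :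
    inI (Vl l) 0 a := by
  intro j u hu
  exact rs_apply h hu (fun q hq i hi => by
    have := hl hi.1.le
    simp only [Set.mem_ofPred_eq] at *
    omega)

/-- every element of `G` is unipotent with respect to some level function -/
theorem exists_level (g : Gam) (hg : g ∈ G) : ∃ (n : ℕ) (l : ℚ → ℕ), Monotone l ∧ (∀ q, l q ≤ n) ∧
    g.x ∈ Uni l := by
  induction hg using Subgroup.closure_induction with
  | mem g hg =>
    obtain ⟨w, i, j, h, rfl⟩ := hg
    refine ⟨1, fun q => if j ≤ q then 1 else 0, ?_, ?_, t_mem_Uni h⟩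
    · intro a b hab
      simp only
      split_ifs with h1 h2 <;> first | omega | exact absurd (h1.trans hab) h2
    · intro q
      simp only
      split_ifs <;> omega
  | one => exact ⟨0, fun _ => 0, fun _ _ _ => le_rfl, fun _ => le_rfl, one_mem _⟩
  | mul a b _ _ ha hb =>
    obtain ⟨n, l, h1, h2, h3⟩ := ha
    obtain ⟨n', l', h1', h2', h3'⟩ := hb
    refine ⟨n + n', fun q => l q + l' q, fun a b hab => add_le_add (h1 hab) (h1' hab),
      fun q => add_le_add (h2 q) (h2' q), mul_mem (Uni_mono h1' h3) ?_⟩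
    have := Uni_mono h1 h3'
    have e : (fun q => l' q + l q) = (fun q => l q + l' q) := by funext q; exact add_comm _ _
    rwa [e] at this
  | inv a _ ha =>
    obtain ⟨n, l, h1, h2, h3⟩ := ha
    exact ⟨n, l, h1, h2, inv_mem h3⟩

theorem mem_St_one {l : ℚ → ℕ} {x : (End)ˣ} (h : x ∈ Uni l) : x ∈ St (Vl l) (Vl_anti l) 1 :=
  ⟨inI_of_rs h.1, inI_of_rs h.2⟩

theorem mem_St_zero {l : ℚ → ℕ} (hl : Monotone l) (g : Gam) (hg : g ∈ G) :
    g.x ∈ St (Vl l) (Vl_anti l) 0 := by
  obtain ⟨n, l', -, -, h⟩ := exists_level g hg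
  exact ⟨inI_zero_of_rs hl h.1, inI_zero_of_rs hl h.2⟩

theorem eq_one_of_St {l : ℚ → ℕ} {n : ℕ} (h : ∀ q, l q ≤ n) {x : (End)ˣ}
    (hx : x ∈ St (Vl l) (Vl_anti l) (n + 1)) : x = 1 := by
  apply Units.ext
  apply LinearMap.ext
  intro u
  have h1 := hx.1 0 u (by rw [Vl_zero]; trivial)
  rw [zero_add, Vl_top h, Submodule.mem_bot, LinearMap.add_apply] at h1
  have h2 : (x : End) u = -((1 : End) u) := eq_neg_of_add_eq_zero_left h1
  rw [h2, Units.val_one]
  have h3 : ((1 : End) + 1) u = 0 := by rw [two_end]; rfl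
  exact (eq_neg_of_add_eq_zero_left h3).symm

/-- a unipotent automorphism has `2`-power order -/
theorem pow_eq_one {l : ℚ → ℕ} {n : ℕ} (h : ∀ q, l q ≤ n) {x : (End)ˣ} (hx : x ∈ Uni l) :
    ∃ r : ℕ, x ^ 2 ^ r = 1 := by
  have h1 := inI_of_rs hx.1
  have h2 : ∀ k, inI (Vl l) k (((x : End) + 1) ^ k) := by
    intro k
    induction k with
    | zero => rw [pow_zero]; exact inI_one
    | succ k ih => rw [pow_succ']; exact h1.mul ih
  have h3 : ∀ r, ((x : End) + 1) ^ 2 ^ r = (x : End) ^ 2 ^ r + 1 := by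
    intro r
    induction r with
    | zero => simp
    | succ r ih =>
      rw [pow_succ, pow_mul, ih, pow_mul]
      have e : ((x : End) ^ 2 ^ r + 1) ^ 2 = ((x : End) ^ 2 ^ r) ^ 2 + 1 +
          ((x : End) ^ 2 ^ r + (x : End) ^ 2 ^ r) := by noncomm_ring
      rw [e, two_end, add_zero]
  refine ⟨n + 1, ?_⟩
  have h4 : ((x : End) + 1) ^ 2 ^ (n + 1) = 0 := by
    obtain ⟨d, hd⟩ : ∃ d, 2 ^ (n + 1) = (n + 1) + d :=
      ⟨2 ^ (n + 1) - (n + 1), by have := Nat.lt_two_pow_self (n := n + 1); omega⟩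
    rw [hd, pow_add]
    have h5 : ((x : End) + 1) ^ (n + 1) = 0 := by
      apply LinearMap.ext
      intro u
      have := h2 (n + 1) 0 u (by rw [Vl_zero]; trivial)
      rw [zero_add, Vl_top h, Submodule.mem_bot] at this
      rw [this]; rfl
    rw [h5, zero_mul]
  rw [h3] at h4
  apply Units.ext
  rw [Units.val_pow_eq_pow_val, Units.val_one]
  calc (x : End) ^ 2 ^ (n + 1) = (x : End) ^ 2 ^ (n + 1) + 1 + 1 := by
        rw [add_assoc, two_end, add_zero]
    _ = 1 := by rw [h4, zero_add]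

theorem D_D (m : (End)ˣ) (h : U → ZMod 2) : D m (D m h) = D (m ^ 2) h := by
  funext u
  simp only [D, sq, mul_inv_rev, Units.val_mul, Module.End.mul_apply]
  have := CharTwo.add_self_eq_zero (h (((m⁻¹ : (End)ˣ) : End) u))
  linear_combination this

theorem D_iter (r : ℕ) : ∀ (m : (End)ˣ) (h : U → ZMod 2), (D m)^[2 ^ r] h = D (m ^ 2 ^ r) h := by
  induction r with
  | zero => intro m h; simp
  | succ r ih =>
    intro m h
    rw [pow_succ, mul_comm, Function.iterate_mul]
    have e : (D m)^[2] = D (m ^ 2) := by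
      funext h
      exact D_D m h
    rw [e, ih, ← pow_mul]

theorem D_one (h : U → ZMod 2) : D 1 h = 0 := by
  funext u
  simp only [D, inv_one, Units.val_one, Module.End.one_apply]
  exact CharTwo.add_self_eq_zero _

theorem D_add (m : (End)ˣ) (h h' : U → ZMod 2) : D m (h + h') = D m h + D m h' := by
  funext u
  simp only [D, Pi.add_apply]
  ring

theorem D_iter_add (m : (End)ˣ) (r : ℕ) (h h' : U → ZMod 2) :
    (D m)^[r] (h + h') = (D m)^[r] h + (D m)^[r] h' := by
  induction r generalizing h h' with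
  | zero => rfl
  | succ r ih => rw [Function.iterate_succ_apply, D_add, ih, Function.iterate_succ_apply,
      Function.iterate_succ_apply]

theorem D_iter_zero (m : (End)ˣ) (r : ℕ) : (D m)^[r] 0 = 0 := by
  induction r with
  | zero => rfl
  | succ r ih =>
    rw [Function.iterate_succ_apply]
    have : D m 0 = 0 := by funext u; simp [D]
    rw [this, ih]

/-- the second part of the chain -/
def CW (m : (End)ˣ) (r : ℕ) : Subgroup G where
  carrier := {a | (a : Gam).x = 1 ∧ ∃ h, (a : Gam).f = (D m)^[r] h}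
  one_mem' := ⟨rfl, 0, by rw [D_iter_zero]; rfl⟩
  mul_mem' := by
    rintro a b ⟨h1, h, h2⟩ ⟨h3, h', h4⟩
    refine ⟨by change (a : Gam).x * (b : Gam).x = 1; rw [h1, h3, one_mul], h + h', ?_⟩
    rw [D_iter_add, ← h2, ← h4]
    funext u
    change (a : Gam).f u + (b : Gam).f ((((a : Gam).x⁻¹ : (End)ˣ) : End) u) = _
    rw [h1]
    simp
  inv_mem' := by
    rintro a ⟨h1, h, h2⟩
    refine ⟨by change ((a : Gam).x)⁻¹ = 1; rw [h1, inv_one], h, ?_⟩
    rw [← h2]
    funext u
    change (a : Gam).f (((a : Gam).x : End) u) = _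
    rw [h1]
    simp

theorem baer (g : G) : (Subgroup.zpowers g).IsSubnormal := by
  obtain ⟨n, l, hl, hn, hg⟩ := exists_level g.1 g.2
  obtain ⟨r, hr⟩ := pow_eq_one hn hg
  set m := (g : Gam).x with hm
  -- first part
  set CC : ℕ → Subgroup G := fun k => (St (Vl l) (Vl_anti l) k).comap (pr.comp G.subtype) with hCC
  have hCCm : ∀ k (a : G), a ∈ CC k ↔ (a : Gam).x ∈ St (Vl l) (Vl_anti l) k := fun k a => Iff.rfl
  have h0 : CC 0 = ⊤ := by
    rw [eq_top_iff]
    intro a _
    exact mem_St_zero hl a.1 a.2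
  have h1 : ∀ k, (CC k ⊔ Subgroup.zpowers g).IsSubnormal := by
    intro k
    induction k with
    | zero => rw [h0, top_sup_eq]; exact Subgroup.IsSubnormal.top
    | succ k ih =>
      refine step g (CC k) (CC (k + 1)) ?_ ?_ ?_ ih
      · intro a ha
        exact St_succ_le (hV := Vl_anti l) k ha
      · intro a _ d hd
        exact St_conj (mem_St_zero hl a.1 a.2) hd
      · intro a ha
        exact St_comm ha (mem_St_one hg)
  have h2 : CC (n + 1) = CW m 0 := by
    ext a
    constructor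
    · intro ha
      exact ⟨eq_one_of_St hn ha, (a : Gam).f, rfl⟩
    · rintro ⟨ha, -⟩
      rw [hCCm, ha]
      exact one_mem _
  have h3 : ∀ k, (CW m k ⊔ Subgroup.zpowers g).IsSubnormal := by
    intro k
    induction k with
    | zero => rw [← h2]; exact h1 _
    | succ k ih =>
      refine step g (CW m k) (CW m (k + 1)) ?_ ?_ ?_ ih
      · rintro a ⟨ha, h, hh⟩
        exact ⟨ha, D m h, by rw [hh, Function.iterate_succ_apply]⟩
      · rintro a ⟨ha, -⟩ d ⟨hd, h, hh⟩
        have : a * d * a⁻¹ = d := by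
          apply Subtype.ext
          refine Gam.ext (funext fun u => ?_) ?_
          · change (a : Gam).f u + (d : Gam).f ((((a : Gam).x⁻¹ : (End)ˣ) : End) u) +
              (a : Gam).f (((a : Gam).x : End) (((((a : Gam).x * (d : Gam).x)⁻¹ : (End)ˣ) : End) u)) =
                (d : Gam).f u
            rw [ha, hd]
            simp only [inv_one, mul_one, Units.val_one, Module.End.one_apply]
            have := CharTwo.add_self_eq_zero ((a : Gam).f u)
            linear_combination this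
          · change (a : Gam).x * (d : Gam).x * ((a : Gam).x)⁻¹ = (d : Gam).x
            rw [ha]; simp
        rw [this]
        exact ⟨hd, h, hh⟩
      · rintro a ⟨ha, h, hh⟩
        refine ⟨?_, h, ?_⟩
        · change (a : Gam).x * (g : Gam).x * ((a : Gam).x)⁻¹ * ((g : Gam).x)⁻¹ = 1
          rw [ha]; simp
        · rw [Function.iterate_succ_apply', ← hh]
          funext u
          change (a : Gam).f u + (g : Gam).f ((((a : Gam).x⁻¹ : (End)ˣ) : End) u) +
            (a : Gam).f (((a : Gam).x : End) (((((a : Gam).x * (g : Gam).x)⁻¹ : (End)ˣ) : End) u)) +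
            (g : Gam).f (((g : Gam).x : End)
              ((((((a : Gam).x * (g : Gam).x * ((a : Gam).x)⁻¹)⁻¹ : (End)ˣ)) : End) u)) = _
          rw [ha, ← hm]
          simp only [inv_one, mul_one, one_mul, Units.val_one, Module.End.one_apply, D]
          have e : (m : End) (((m⁻¹ : (End)ˣ) : End) u) = u := by
            rw [← Module.End.mul_apply, ← Units.val_mul, mul_inv_cancel]; rfl
          rw [e]
          have := CharTwo.add_self_eq_zero ((g : Gam).f u)
          linear_combination this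
  have h4 : CW m (2 ^ r) = ⊥ := by
    rw [eq_bot_iff]
    rintro a ⟨ha, h, hh⟩
    rw [D_iter, hr, D_one] at hh
    rw [Subgroup.mem_bot]
    exact Subtype.ext (Gam.ext hh ha)
  have h5 := h3 (2 ^ r)
  rwa [h4, bot_sup_eq] at h5

end

end Pool.Agent.Q115.McBaer
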