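import Mathlib

set_option autoImplicit false

namespace Pool.Agent.Q115.ModGrp

/-- The semidirect product of the additive group of `ZMod (2 ^ (m + 2))` with a group of order `2`
whose generator acts as multiplication by `1 + 2 ^ (m + 1)`. -/
@[ext]
structure MG (m : ℕ) : Type where
  i : ZMod (2 ^ (m + 2))
  u : Bool

variable {m : ℕ}

/-- the multiplier -/
def tw (m : ℕ) (u : Bool) : ZMod (2 ^ (m + 2)) := if u then 1 + 2 ^ (m + 1) else 1

instance : Mul (MG m) := ⟨fun a b => ⟨a.i + tw m a.u * b.i, xor a.u b.u⟩⟩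
instance : One (MG m) := ⟨⟨0, false⟩⟩
instance : Inv (MG m) := ⟨fun a => ⟨-(tw m a.u * a.i), a.u⟩⟩

theorem mul_i (a b : MG m) : (a * b).i = a.i + tw m a.u * b.i := rfl
theorem mul_u (a b : MG m) : (a * b).u = xor a.u b.u := rfl
theorem one_i : (1 : MG m).i = 0 := rfl
theorem one_u : (1 : MG m).u = false := rfl
theorem inv_i (a : MG m) : (a⁻¹).i = -(tw m a.u * a.i) := rfl
theorem inv_u (a : MG m) : (a⁻¹).u = a.u := rfl

theorem two_pow_eq : (2 : ZMod (2 ^ (m + 2))) ^ (m + 2) = 0 := by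
  have := ZMod.natCast_self (2 ^ (m + 2))
  push_cast at this
  exact this

theorem sq_eq : (2 : ZMod (2 ^ (m + 2))) ^ (m + 1) * 2 ^ (m + 1) = 0 := by
  have h : (2 : ZMod (2 ^ (m + 2))) ^ (m + 1) * 2 ^ (m + 1) = 2 ^ (m + 2) * 2 ^ m := by ring
  rw [h, two_pow_eq, zero_mul]

theorem two_mul_eq : (2 : ZMod (2 ^ (m + 2))) * 2 ^ (m + 1) = 0 := by
  rw [mul_comm, ← pow_succ]; exact two_pow_eq

theorem tw_mul (u v : Bool) : tw m u * tw m v = tw m (xor u v) := by
  have h1 := sq_eq (m := m)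
  have h2 := two_mul_eq (m := m)
  cases u <;> cases v <;> simp [tw]
  linear_combination h1 + h2

theorem tw_false : tw m false = 1 := rfl

instance : Group (MG m) := Group.ofLeftAxioms
  (by
    intro a b c
    refine MG.ext ?_ ?_
    · simp only [mul_i, mul_u, ← tw_mul]; ring
    · simp only [mul_u, Bool.xor_assoc])
  (by
    intro a
    refine MG.ext ?_ ?_
    · simp only [mul_i, one_i, one_u, tw_false]; ring
    · simp only [mul_u, one_u, Bool.false_xor])
  (by
    intro a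
    refine MG.ext ?_ ?_
    · simp only [mul_i, inv_i, inv_u, one_i]; ring
    · simp only [mul_u, inv_u, one_u, Bool.xor_self])

/-- the equivalence with a product -/
def equivProd : MG m ≃ ZMod (2 ^ (m + 2)) × Bool where
  toFun a := (a.i, a.u)
  invFun p := ⟨p.1, p.2⟩
  left_inv _ := rfl
  right_inv _ := rfl

instance : Finite (MG m) := by
  have : NeZero (2 ^ (m + 2)) := ⟨by positivity⟩
  exact Finite.of_equiv _ (equivProd (m := m)).symm

theorem card_MG : Nat.card (MG m) = 2 ^ (m + 3) := by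
  have : NeZero (2 ^ (m + 2)) := ⟨by positivity⟩
  rw [Nat.card_congr (equivProd (m := m)), Nat.card_prod, Nat.card_zmod]
  simp
  ring

/-- the central involution -/
def z (m : ℕ) : MG m := ⟨2 ^ (m + 1), false⟩

/-- every element of `ZMod (2 ^ (m+2))` times `2 ^ (m+1)` is `0` or `2 ^ (m+1)` -/
theorem mul_pow_cases (x : ZMod (2 ^ (m + 2))) :
    2 ^ (m + 1) * x = 0 ∨ 2 ^ (m + 1) * x = 2 ^ (m + 1) := by
  have : NeZero (2 ^ (m + 2)) := ⟨by positivity⟩
  have h2 := two_mul_eq (m := m)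
  obtain ⟨n, rfl⟩ := ZMod.natCast_zmod_surjective x
  rcases Nat.even_or_odd' n with ⟨k, rfl | rfl⟩
  · left
    push_cast
    linear_combination (k : ZMod (2 ^ (m + 2))) * h2
  · right
    push_cast
    linear_combination (k : ZMod (2 ^ (m + 2))) * h2

/-- conjugates differ by `1` or `z` -/
theorem conj_cases (g h : MG m) : g * h * g⁻¹ = h ∨ g * h * g⁻¹ = h * z m := by
  have h2 := two_mul_eq (m := m)
  have h1 := sq_eq (m := m)
  obtain ⟨i, u⟩ := g
  obtain ⟨j, v⟩ := h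
  have key : ∀ w : ZMod (2 ^ (m + 2)), 
      ((⟨i, u⟩ * ⟨j, v⟩ * (⟨i, u⟩ : MG m)⁻¹).i = j + 2 ^ (m + 1) * w) → 
      (⟨i, u⟩ * ⟨j, v⟩ * (⟨i, u⟩ : MG m)⁻¹ = ⟨j, v⟩ ∨ 
        ⟨i, u⟩ * ⟨j, v⟩ * (⟨i, u⟩ : MG m)⁻¹ = ⟨j, v⟩ * z m) := by
    intro w hw
    have hu : (⟨i, u⟩ * ⟨j, v⟩ * (⟨i, u⟩ : MG m)⁻¹).u = v := by
      simp only [mul_u, inv_u]
      cases u <;> cases v <;> rfl
    rcases mul_pow_cases w with h | h
    · left
      exact MG.ext (by rw [hw, h, add_zero]) hu
    · right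
      refine MG.ext ?_ ?_
      · rw [hw, h, mul_i]
        simp only [z]
        cases v <;> simp [tw]
        linear_combination -h1
      · rw [hu, mul_u]; simp [z]
  cases u <;> cases v
  · apply key 0; simp [mul_i, inv_i, mul_u, tw]
  · apply key (-i); simp [mul_i, inv_i, mul_u, tw]; ring
  · apply key j; simp [mul_i, inv_i, mul_u, tw]; linear_combination (-i) * (h1 + h2)
  · apply key (j - i); simp [mul_i, inv_i, mul_u, tw]; ring

theorem z_ne_one : z m ≠ 1 := by
  intro h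
  have h1 : (2 : ZMod (2 ^ (m + 2))) ^ (m + 1) = 0 := congrArg MG.i h
  have h2 : ((2 ^ (m + 1) : ℕ) : ZMod (2 ^ (m + 2))) = 0 := by push_cast; exact h1
  rw [ZMod.natCast_eq_zero_iff] at h2
  have := Nat.le_of_dvd (by positivity) h2
  have h3 : 2 ^ (m + 1) < 2 ^ (m + 2) := Nat.pow_lt_pow_right (by norm_num) (by omega)
  omega

/-- a subgroup containing `z` is normal -/
theorem normal_of_mem (H : Subgroup (MG m)) (hz : z m ∈ H) : H.Normal := by
  refine ⟨fun h hh g => ?_⟩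
  rcases conj_cases g h with e | e
  · rw [e]; exact hh
  · rw [e]; exact H.mul_mem hh hz

theorem mk_pow (i : ZMod (2 ^ (m + 2))) (n : ℕ) :
    (⟨i, false⟩ : MG m) ^ n = ⟨n * i, false⟩ := by
  induction n with
  | zero => simp; rfl
  | succ n ih =>
    rw [pow_succ, ih]
    refine MG.ext ?_ ?_
    · simp only [mul_i, tw_false]; push_cast; ring
    · rfl

/-- a nontrivial element of the cyclic subgroup has `z` as a power -/
theorem z_mem_of (i : ZMod (2 ^ (m + 2))) (hi : i ≠ 0) : 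
    ∃ n : ℕ, (⟨i, false⟩ : MG m) ^ n = z m := by
  have : NeZero (2 ^ (m + 2)) := ⟨by positivity⟩
  have hv : i.val ≠ 0 := by rwa [Ne, ZMod.val_eq_zero]
  obtain ⟨e, q, hq, he⟩ := Nat.exists_eq_two_pow_mul_odd hv
  have hlt : i.val < 2 ^ (m + 2) := ZMod.val_lt i
  have hq1 : 1 ≤ q := hq.pos
  have he2 : e < m + 2 := by
    by_contra hcon
    push Not at hcon
    have h1 : 2 ^ (m + 2) ≤ 2 ^ e := Nat.pow_le_pow_right (by norm_num) hcon
    have : 2 ^ e ≤ 2 ^ e * q := Nat.le_mul_of_pos_right _ hq1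
    omega
  refine ⟨2 ^ (m + 1 - e), ?_⟩
  rw [mk_pow]
  refine MG.ext ?_ rfl
  change ((2 ^ (m + 1 - e) : ℕ) : ZMod (2 ^ (m + 2))) * i = 2 ^ (m + 1)
  obtain ⟨r, rfl⟩ := hq
  have hi2 : i = ((2 ^ e * (2 * r + 1) : ℕ) : ZMod (2 ^ (m + 2))) := by
    rw [← he, ZMod.natCast_zmod_val]
  rw [hi2, ← Nat.cast_mul]
  have h3 : 2 ^ (m + 1 - e) * (2 ^ e * (2 * r + 1)) = 2 ^ (m + 1) + 2 ^ (m + 2) * r := by
    rw [← mul_assoc, ← pow_add, Nat.sub_add_cancel (by omega)]
    ring
  rw [h3]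
  push_cast
  rw [two_pow_eq]
  ring

/-- a nonnormal subgroup has order at most two -/
theorem card_le_two (H : Subgroup (MG m)) (hz : z m ∉ H) : Nat.card H ≤ 2 := by
  have hinj : Function.Injective (fun h : H => (h : MG m).u) := by
    rintro ⟨⟨i, u⟩, hx⟩ ⟨⟨j, v⟩, hy⟩ (huv : u = v)
    subst huv
    have h1 : (⟨i, u⟩ * (⟨j, u⟩ : MG m)⁻¹) = ⟨i - j, false⟩ := by
      refine MG.ext ?_ ?_
      · simp only [mul_i, inv_i]
        have := tw_mul (m := m) u u
        rw [Bool.xor_self, tw_false] at this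
        linear_combination (-j) * this
      · simp [mul_u, inv_u]
    have h2 : (⟨i - j, false⟩ : MG m) ∈ H := by
      rw [← h1]; exact H.mul_mem hx (H.inv_mem hy)
    by_cases h3 : i - j = 0
    · rw [sub_eq_zero] at h3; subst h3; rfl
    · exfalso
      obtain ⟨n, hn⟩ := z_mem_of (i - j) h3
      exact hz (hn ▸ H.pow_mem h2 n)
  have := Nat.card_le_card_of_injective _ hinj
  simpa using this

/-- the noncentral involution -/
def s (m : ℕ) : MG m := ⟨0, true⟩

theorem s_mul_s : s m * s m = 1 := by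
  refine MG.ext ?_ ?_ <;> simp [s, mul_i, mul_u, one_i, one_u]

theorem s_ne_one : s m ≠ 1 := by
  intro h
  have : true = false := congrArg MG.u h
  cases this

/-- the generator of the cyclic subgroup -/
def x (m : ℕ) : MG m := ⟨1, false⟩

theorem conj_s : x m * s m * (x m)⁻¹ = z m * s m := by
  have h2 := two_mul_eq (m := m)
  refine MG.ext ?_ ?_
  · simp [s, x, z, mul_i, mul_u, inv_i, tw]
    linear_combination -h2
  · simp [s, x, z, mul_u, inv_u]

end Pool.Agent.Q115.ModGrp
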