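import Mathlib
import Pool.Agent.TH236.SUDiag

set_option autoImplicit false
set_option linter.unusedSectionVars false
set_option linter.unusedSimpArgs false

namespace Pool.Agent.Q115.SUSpec

open Matrix

section spec

variable {ι κ : Type} [Fintype ι] [DecidableEq ι] [Fintype κ] [DecidableEq κ]

/-- `A` is unitarily similar to a diagonal matrix whose diagonal is the multiset `s`. -/
def Sp (A : Matrix ι ι ℂ) (s : Multiset ℂ) : Prop :=
  ∃ U : Matrix ι ι ℂ, U ∈ unitaryGroup ι ℂ ∧ ∃ d : ι → ℂ,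
    A = U * diagonal d * star U ∧ (Finset.univ : Finset ι).val.map d = s

theorem Sp.diag (d : ι → ℂ) : Sp (diagonal d) ((Finset.univ : Finset ι).val.map d) :=
  ⟨1, one_mem _, d, by simp, rfl⟩

theorem map_univ_sum (d : ι → ℂ) (d' : κ → ℂ) :
    (Finset.univ : Finset (ι ⊕ κ)).val.map (Sum.elim d d') =
      (Finset.univ : Finset ι).val.map d + (Finset.univ : Finset κ).val.map d' := by
  rw [← Finset.univ_disjSum_univ, Finset.val_disjSum, Multiset.disjSum, Multiset.map_add,
    Multiset.map_map, Multiset.map_map]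
  rfl

theorem Sp.sum {A : Matrix ι ι ℂ} {B : Matrix κ κ ℂ} {s t : Multiset ℂ} (hA : Sp A s)
    (hB : Sp B t) : Sp (fromBlocks A 0 0 B) (s + t) := by
  obtain ⟨U, hU, d, rfl, rfl⟩ := hA
  obtain ⟨V, hV, d', rfl, rfl⟩ := hB
  refine ⟨fromBlocks U 0 0 V, ?_, Sum.elim d d', ?_, map_univ_sum d d'⟩
  · rw [mem_unitaryGroup_iff] at *
    rw [star_eq_conjTranspose, fromBlocks_conjTranspose, fromBlocks_multiply]
    simp only [conjTranspose_zero, Matrix.mul_zero, Matrix.zero_mul, add_zero, zero_add]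
    rw [← star_eq_conjTranspose, ← star_eq_conjTranspose, hU, hV, fromBlocks_one]
  · rw [star_eq_conjTranspose (fromBlocks U 0 0 V), fromBlocks_conjTranspose,
      ← fromBlocks_diagonal, fromBlocks_multiply, fromBlocks_multiply]
    simp only [conjTranspose_zero, Matrix.mul_zero, Matrix.zero_mul, add_zero, zero_add]
    rfl

/-- conjugation by a unitary and transport along a bijection -/
def tp (V : Matrix ι ι ℂ) (e : ι ≃ κ) (B : Matrix κ κ ℂ) : Matrix ι ι ℂ :=
  V * B.submatrix e e * star V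

theorem tp_mul {V : Matrix ι ι ℂ} (hV : V ∈ unitaryGroup ι ℂ) (e : ι ≃ κ) (B C : Matrix κ κ ℂ) :
    tp V e (B * C) = tp V e B * tp V e C := by
  have h : star V * V = 1 := mem_unitaryGroup_iff'.1 hV
  unfold tp
  rw [← submatrix_mul_equiv B C e e e]
  calc _ = V * B.submatrix e e * (star V * V) * C.submatrix e e * star V := by
        rw [h]; simp only [mul_assoc, mul_one, one_mul]
    _ = _ := by simp only [mul_assoc]

theorem tp_one {V : Matrix ι ι ℂ} (hV : V ∈ unitaryGroup ι ℂ) (e : ι ≃ κ) :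
    tp V e (1 : Matrix κ κ ℂ) = 1 := by
  unfold tp
  rw [submatrix_one_equiv, mul_one]
  exact mem_unitaryGroup_iff.1 hV

theorem tp_star {V : Matrix ι ι ℂ} (e : ι ≃ κ) (B : Matrix κ κ ℂ) :
    tp V e (star B) = star (tp V e B) := by
  unfold tp
  rw [star_mul, star_mul, star_star, mul_assoc]
  rfl

theorem tp_unitary {V : Matrix ι ι ℂ} (hV : V ∈ unitaryGroup ι ℂ) (e : ι ≃ κ)
    {B : Matrix κ κ ℂ} (hB : B ∈ unitaryGroup κ ℂ) : tp V e B ∈ unitaryGroup ι ℂ := by
  rw [mem_unitaryGroup_iff, ← tp_star, ← tp_mul hV, mem_unitaryGroup_iff.1 hB, tp_one hV]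

theorem tp_det {V : Matrix ι ι ℂ} (hV : V ∈ unitaryGroup ι ℂ) (e : ι ≃ κ)
    (B : Matrix κ κ ℂ) : (tp V e B).det = B.det := by
  unfold tp
  have h : (V * star V).det = 1 := by rw [mem_unitaryGroup_iff.1 hV, det_one]
  rw [det_mul] at h
  rw [det_mul, det_mul, det_submatrix_equiv_self]
  linear_combination B.det * h

theorem card_eq_of_map_eq {d : ι → ℂ} {d' : κ → ℂ}
    (h : (Finset.univ : Finset ι).val.map d = (Finset.univ : Finset κ).val.map d') :
    Fintype.card ι = Fintype.card κ := by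
  have := congrArg Multiset.card h
  simpa using this

theorem exists_equiv {d : ι → ℂ} {d' : κ → ℂ}
    (h : (Finset.univ : Finset ι).val.map d = (Finset.univ : Finset κ).val.map d') :
    ∃ e : ι ≃ κ, ∀ i, d i = d' (e i) := by
  classical
  have hc : ∀ x : ℂ, Fintype.card {i // d i = x} = Fintype.card {j // d' j = x} := by
    intro x
    have h1 := congrArg (Multiset.count x) h
    rw [Multiset.count_map, Multiset.count_map] at h1
    rw [Fintype.card_subtype, Fintype.card_subtype]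
    rw [Finset.card_def, Finset.card_def, Finset.filter_val, Finset.filter_val]
    convert h1 using 3 <;> exact eq_comm
  have he : ∀ x : ℂ, Nonempty ({i // d i = x} ≃ {j // d' j = x}) := fun x =>
    Fintype.card_eq.1 (hc x)
  let f := fun x => Classical.choice (he x)
  refine ⟨(Equiv.sigmaFiberEquiv d).symm.trans
    ((Equiv.sigmaCongrRight f).trans (Equiv.sigmaFiberEquiv d')), fun i => ?_⟩
  simp only [Equiv.trans_apply, Equiv.sigmaFiberEquiv, Equiv.coe_fn_symm_mk,
    Equiv.sigmaCongrRight_apply, Equiv.coe_fn_mk, Sigma.map]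
  exact ((f (d i)) ⟨i, rfl⟩).2.symm

theorem Sp.transport {A : Matrix ι ι ℂ} {B : Matrix κ κ ℂ} {s : Multiset ℂ} (hA : Sp A s)
    (hB : Sp B s) : ∃ V ∈ unitaryGroup ι ℂ, ∃ e : ι ≃ κ, A = tp V e B := by
  obtain ⟨U, hU, d, rfl, rfl⟩ := hA
  obtain ⟨W, hW, d', rfl, h⟩ := hB
  obtain ⟨e, he⟩ := exists_equiv h.symm
  have hd : d = d' ∘ e := funext he
  have hWe : W.submatrix e e ∈ unitaryGroup ι ℂ := by
    rw [mem_unitaryGroup_iff]
    change W.submatrix e e * (star W).submatrix e e = 1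
    rw [submatrix_mul_equiv, mem_unitaryGroup_iff.1 hW, submatrix_one_equiv]
  have hWe' : star (W.submatrix e e) * W.submatrix e e = 1 := mem_unitaryGroup_iff'.1 hWe
  refine ⟨U * star (W.submatrix e e), mul_mem hU (Unitary.star_mem hWe), e, ?_⟩
  unfold tp
  rw [← submatrix_mul_equiv _ _ e e e, ← submatrix_mul_equiv _ _ e e e,
    submatrix_diagonal_equiv, ← hd, star_mul, star_star]
  have h2 : (star W).submatrix e e = star (W.submatrix e e) := rfl
  rw [h2]
  calc U * diagonal d * star U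
      = U * (star (W.submatrix e e) * W.submatrix e e) * diagonal d *
          (star (W.submatrix e e) * W.submatrix e e) * star U := by rw [hWe', mul_one, mul_one]
    _ = _ := by simp only [mul_assoc]

theorem Sp.unitary {A : Matrix ι ι ℂ} {s : Multiset ℂ} (hA : Sp A s) (hs : ∀ x ∈ s, ‖x‖ = 1) :
    A ∈ unitaryGroup ι ℂ := by
  obtain ⟨U, hU, d, rfl, rfl⟩ := hA
  refine mul_mem (mul_mem hU ?_) (Unitary.star_mem hU)
  rw [mem_unitaryGroup_iff, star_eq_conjTranspose, diagonal_conjTranspose, diagonal_mul_diagonal,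
    ← diagonal_one]
  congr 1
  funext i
  have h1 : ‖d i‖ = 1 := hs _ (Multiset.mem_map_of_mem _ (Finset.mem_univ i))
  have h2 : d i * (starRingEnd ℂ) (d i) = 1 := by
    rw [Complex.mul_conj, Complex.normSq_eq_norm_sq, h1]; norm_num
  exact h2

theorem Sp.det {A : Matrix ι ι ℂ} {s : Multiset ℂ} (hA : Sp A s) : A.det = s.prod := by
  obtain ⟨U, hU, d, rfl, rfl⟩ := hA
  have h : (U * star U).det = 1 := by rw [mem_unitaryGroup_iff.1 hU, det_one]
  rw [det_mul] at h
  rw [det_mul, det_mul, det_diagonal]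
  change _ = Finset.prod _ _
  linear_combination (∏ i, d i) * h

theorem Sp.trace {A : Matrix ι ι ℂ} {s : Multiset ℂ} (hA : Sp A s) : A.trace = s.sum := by
  obtain ⟨U, hU, d, rfl, rfl⟩ := hA
  rw [trace_mul_comm, ← mul_assoc, mem_unitaryGroup_iff'.1 hU, one_mul, trace_diagonal]
  rfl

theorem exists_Sp {n : ℕ} {A : Matrix (Fin n) (Fin n) ℂ} (hA : A ∈ unitaryGroup (Fin n) ℂ) :
    ∃ s, Sp A s ∧ (∀ x ∈ s, ‖x‖ = 1) ∧ Multiset.card s = n := by
  obtain ⟨U, hU, d, h⟩ := Pool.TH236.SU.unitary_diag A hA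
  refine ⟨_, ⟨U, hU, d, h, rfl⟩, ?_, by simp⟩
  intro x hx
  obtain ⟨i, -, rfl⟩ := Multiset.mem_map.1 hx
  exact Pool.TH236.SU.diag_norm A U hA hU d h i

end spec

end Pool.Agent.Q115.SUSpec
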