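import Mathlib
import Pool.Agent.Q115.SUSpec

set_option autoImplicit false
set_option linter.unusedSectionVars false
set_option linter.unusedSimpArgs false

namespace Pool.Agent.Q115.SUChain

open Matrix Pool.Agent.Q115.SUSpec

/-- `M S X Y`: there are matrices `A`, `B` with spectra `X`, `Y` such that `A * B` has
spectrum `S`. -/
def M (S X Y : Multiset ℂ) : Prop :=
  ∃ (ι : Type) (_ : Fintype ι) (_ : DecidableEq ι) (A B : Matrix ι ι ℂ),
    Sp A X ∧ Sp B Y ∧ Sp (A * B) S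

theorem M.add {S X Y S' X' Y' : Multiset ℂ} (h : M S X Y) (h' : M S' X' Y') :
    M (S + S') (X + X') (Y + Y') := by
  obtain ⟨ι, _, _, A, B, h1, h2, h3⟩ := h
  obtain ⟨κ, _, _, A', B', h1', h2', h3'⟩ := h'
  refine ⟨ι ⊕ κ, inferInstance, inferInstance, _, _, h1.sum h1', h2.sum h2', ?_⟩
  rw [fromBlocks_multiply]
  simp only [Matrix.mul_zero, Matrix.zero_mul, add_zero, zero_add]
  exact h3.sum h3'

theorem Sp_unit (a : ℂ) : Sp (diagonal (fun _ : Unit => a)) {a} := Sp.diag (fun _ : Unit => a)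

theorem M.single (a b : ℂ) : M {a * b} {a} {b} := by
  refine ⟨Unit, inferInstance, inferInstance, _, _, Sp_unit a, Sp_unit b, ?_⟩
  rw [diagonal_mul_diagonal]
  exact Sp_unit _

/-- `R X s`: some matrix with spectrum `X` is a product of two unitary involutions of
determinant `s`. -/
def R (X : Multiset ℂ) (s : ℂ) : Prop :=
  ∃ (ι : Type) (_ : Fintype ι) (_ : DecidableEq ι) (J K : Matrix ι ι ℂ),
    J ∈ unitaryGroup ι ℂ ∧ K ∈ unitaryGroup ι ℂ ∧ J * J = 1 ∧ K * K = 1 ∧ J.det = s ∧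
      K.det = s ∧ Sp (J * K) X

theorem blocks_unitary {ι κ : Type} [Fintype ι] [DecidableEq ι] [Fintype κ] [DecidableEq κ]
    {A : Matrix ι ι ℂ} {B : Matrix κ κ ℂ} (hA : A ∈ unitaryGroup ι ℂ)
    (hB : B ∈ unitaryGroup κ ℂ) : fromBlocks A 0 0 B ∈ unitaryGroup (ι ⊕ κ) ℂ := by
  rw [mem_unitaryGroup_iff] at *
  rw [star_eq_conjTranspose, fromBlocks_conjTranspose, fromBlocks_multiply]
  simp only [conjTranspose_zero, Matrix.mul_zero, Matrix.zero_mul, add_zero, zero_add]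
  rw [← star_eq_conjTranspose, ← star_eq_conjTranspose, hA, hB, fromBlocks_one]

theorem R.add {X Y : Multiset ℂ} {s t : ℂ} (h : R X s) (h' : R Y t) : R (X + Y) (s * t) := by
  obtain ⟨ι, _, _, J, K, h1, h2, h3, h4, h5, h6, h7⟩ := h
  obtain ⟨κ, _, _, J', K', h1', h2', h3', h4', h5', h6', h7'⟩ := h'
  refine ⟨ι ⊕ κ, inferInstance, inferInstance, fromBlocks J 0 0 J', fromBlocks K 0 0 K',
    blocks_unitary h1 h1', blocks_unitary h2 h2', ?_, ?_, ?_, ?_, ?_⟩
  · rw [fromBlocks_multiply]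
    simp only [Matrix.mul_zero, Matrix.zero_mul, add_zero, zero_add, h3, h3', fromBlocks_one]
  · rw [fromBlocks_multiply]
    simp only [Matrix.mul_zero, Matrix.zero_mul, add_zero, zero_add, h4, h4', fromBlocks_one]
  · rw [det_fromBlocks_zero₂₁, h5, h5']
  · rw [det_fromBlocks_zero₂₁, h6, h6']
  · rw [fromBlocks_multiply]
    simp only [Matrix.mul_zero, Matrix.zero_mul, add_zero, zero_add]
    exact h7.sum h7'

theorem R.zero : R 0 1 := by
  refine ⟨Fin 0, inferInstance, inferInstance, 1, 1, one_mem _, one_mem _, by simp, by simp,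
    by simp, by simp, ?_⟩
  rw [mul_one, ← diagonal_one]
  exact Sp.diag _

theorem unimod_inv {a : ℂ} (ha : ‖a‖ = 1) : (starRingEnd ℂ) a = a⁻¹ := by
  have h0 : a ≠ 0 := by rintro rfl; simp at ha
  have h2 : a * (starRingEnd ℂ) a = 1 := by
    rw [Complex.mul_conj, Complex.normSq_eq_norm_sq, ha]; norm_num
  field_simp
  linear_combination h2

theorem R.pair {a : ℂ} (ha : ‖a‖ = 1) : R {a, a⁻¹} (-1) := by
  have h0 : a ≠ 0 := by rintro rfl; simp at ha
  have hc := unimod_inv ha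
  have hc' : (starRingEnd ℂ) a⁻¹ = a := by rw [map_inv₀, hc, inv_inv]
  refine ⟨Fin 2, inferInstance, inferInstance, !![0, a; a⁻¹, 0], !![0, 1; 1, 0], ?_, ?_, ?_, ?_,
    ?_, ?_, ?_⟩
  · rw [mem_unitaryGroup_iff]
    ext i j
    fin_cases i <;> fin_cases j <;>
      simp [mul_apply, Fin.sum_univ_two, star_apply, one_apply, hc, h0, -map_inv₀]
    rw [map_inv₀, hc, inv_inv, inv_mul_cancel₀ h0]
  · rw [mem_unitaryGroup_iff]
    ext i j
    fin_cases i <;> fin_cases j <;> simp [mul_apply, Fin.sum_univ_two, star_apply, one_apply]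
  · ext i j
    fin_cases i <;> fin_cases j <;> simp [mul_apply, Fin.sum_univ_two, one_apply, h0]
  · ext i j
    fin_cases i <;> fin_cases j <;> simp [mul_apply, Fin.sum_univ_two, one_apply]
  · simp [det_fin_two, h0]
  · simp [det_fin_two]
  · have h1 : (!![0, a; a⁻¹, 0] * !![0, 1; 1, 0] : Matrix (Fin 2) (Fin 2) ℂ) =
        diagonal ![a, a⁻¹] := by
      ext i j
      fin_cases i <;> fin_cases j <;> simp [mul_apply, Fin.sum_univ_two]
    rw [h1]
    exact Sp.diag ![a, a⁻¹]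

theorem R.one_one : R {1} 1 := by
  refine ⟨Unit, inferInstance, inferInstance, 1, 1, one_mem _, one_mem _, by simp, by simp,
    by simp, by simp, ?_⟩
  rw [mul_one, ← diagonal_one]
  exact Sp_unit 1

theorem R.one_neg : R {1} (-1) := by
  refine ⟨Unit, inferInstance, inferInstance, -1, -1, ?_, ?_, by simp, by simp,
    by simp [det_neg], by simp [det_neg], ?_⟩
  · rw [mem_unitaryGroup_iff]; simp
  · rw [mem_unitaryGroup_iff]; simp
  · rw [neg_mul_neg, mul_one, ← diagonal_one]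
    exact Sp_unit 1

theorem R.dbl {δ : ℂ} (h : δ = 1 ∨ δ = -1) : R {δ, δ} 1 := by
  have hd : δ * δ = 1 := by rcases h with rfl | rfl <;> norm_num
  have hc : (starRingEnd ℂ) δ = δ := by rcases h with rfl | rfl <;> simp
  have hsq : (diagonal ![δ, δ] : Matrix (Fin 2) (Fin 2) ℂ) * diagonal ![δ, δ] = 1 := by
    ext i j
    fin_cases i <;> fin_cases j <;> simp [mul_apply, Fin.sum_univ_two, one_apply, hd]
  refine ⟨Fin 2, inferInstance, inferInstance, 1, diagonal ![δ, δ], one_mem _, ?_, by simp, hsq,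
    by simp, by simp [det_diagonal, Fin.prod_univ_two, hd], ?_⟩
  · rw [mem_unitaryGroup_iff]
    have : star (diagonal ![δ, δ] : Matrix (Fin 2) (Fin 2) ℂ) = diagonal ![δ, δ] := by
      ext i j
      fin_cases i <;> fin_cases j <;> simp [star_apply, hc]
    rw [this, hsq]
  · rw [one_mul]
    exact Sp.diag ![δ, δ]

/-- both signs -/
def R2 (X : Multiset ℂ) : Prop := ∀ s : ℂ, s = 1 ∨ s = -1 → R X s

theorem R2.one : R2 {1} := by
  rintro s (rfl | rfl)
  · exact R.one_one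
  · exact R.one_neg

theorem R2.add {X Y : Multiset ℂ} (h : R2 X) (h' : ∃ s : ℂ, (s = 1 ∨ s = -1) ∧ R Y s) :
    R2 (X + Y) := by
  obtain ⟨t, ht, h2⟩ := h'
  intro s hs
  have h1 : s * t = 1 ∨ s * t = -1 := by
    rcases hs with rfl | rfl <;> rcases ht with rfl | rfl <;> norm_num
  have h3 := (h (s * t) h1).add h2
  have h4 : s * t * t = s := by rcases ht with rfl | rfl <;> ring
  rwa [h4] at h3

theorem R2.dbl {δ : ℂ} (h : δ = 1 ∨ δ = -1) : R2 {δ, δ} := by
  rintro s (rfl | rfl)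
  · exact R.dbl h
  · have hn : ‖δ‖ = 1 := by rcases h with rfl | rfl <;> simp
    have hi : δ⁻¹ = δ := by rcases h with rfl | rfl <;> norm_num
    have := R.pair hn
    rwa [hi] at this

/-- even state -/
def E (L : Multiset ℂ) (y σ : ℂ) : Prop := ∃ X Y, M L X (Y + {y}) ∧ R X σ ∧ R2 Y

/-- odd state -/
def O (L : Multiset ℂ) (x σ : ℂ) : Prop := ∃ X Y, M L (X + {x}) Y ∧ R X σ ∧ R2 Y

theorem O.start (c : ℂ) : O {c} c 1 := by
  refine ⟨0, {1}, ?_, R.zero, R2.one⟩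
  have := M.single c 1
  rwa [mul_one] at this

theorem O.step {L : Multiset ℂ} {x σ : ℂ} (h : O L x σ) (c : ℂ) (hx : ‖x‖ = 1) :
    E (L + {c}) (x * c) (-σ) := by
  obtain ⟨X, Y, h1, h2, h3⟩ := h
  have h0 : x ≠ 0 := by rintro rfl; simp at hx
  have h4 := h1.add (M.single x⁻¹ (x * c))
  rw [inv_mul_cancel_left₀ h0, add_assoc] at h4
  have h5 := h2.add (R.pair hx)
  rw [mul_neg, mul_one] at h5
  exact ⟨X + {x, x⁻¹}, Y, h4, h5, h3⟩

theorem O.step' {L : Multiset ℂ} {x σ : ℂ} (h : O L x σ) (c : ℂ) (hx : x = 1 ∨ x = -1)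
    (hσ : σ = 1 ∨ σ = -1) (τ : ℂ) (hτ : τ = 1 ∨ τ = -1) :
    E (L + {c}) (x * c) τ := by
  obtain ⟨X, Y, h1, h2, h3⟩ := h
  have h0 : x ≠ 0 := by rcases hx with rfl | rfl <;> norm_num
  have hi : x⁻¹ = x := by rcases hx with rfl | rfl <;> norm_num
  have h4 := h1.add (M.single x⁻¹ (x * c))
  rw [inv_mul_cancel_left₀ h0, add_assoc, hi] at h4
  have h5 := (R2.dbl hx).add ⟨σ, hσ, h2⟩
  rw [add_comm] at h5
  exact ⟨X + {x, x}, Y, h4, h5 τ hτ, h3⟩

theorem E.step {L : Multiset ℂ} {y σ : ℂ} (h : E L y σ) (c : ℂ) (hy : ‖y‖ = 1) :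
    O (L + {c}) (y * c) σ := by
  obtain ⟨X, Y, h1, h2, h3⟩ := h
  have h0 : y ≠ 0 := by rintro rfl; simp at hy
  have h4 := h1.add (M.single (y * c) y⁻¹)
  have h5 : y * c * y⁻¹ = c := by field_simp
  rw [h5, add_assoc] at h4
  exact ⟨X, Y + {y, y⁻¹}, h4, h2, h3.add ⟨-1, Or.inr rfl, R.pair hy⟩⟩

/-- `S` is the spectrum of a product of two matrices, each a product of two unitary involutions
of determinant one. -/
def Good (S : Multiset ℂ) : Prop := ∃ X Y, M S X Y ∧ R X 1 ∧ R Y 1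

theorem E.good {S : Multiset ℂ} (h : E S 1 1) : Good S := by
  obtain ⟨X, Y, h1, h2, h3⟩ := h
  refine ⟨X, Y + {1}, h1, h2, ?_⟩
  have := (h3 1 (Or.inl rfl)).add R.one_one
  rwa [one_mul] at this

theorem O.good {S : Multiset ℂ} {σ : ℂ} (hσ : σ = 1 ∨ σ = -1) (h : O S 1 σ) : Good S := by
  obtain ⟨X, Y, h1, h2, h3⟩ := h
  refine ⟨X + {1}, Y, h1, ?_, h3 1 (Or.inl rfl)⟩
  have := h2.add (R2.one σ hσ)
  have h4 : σ * σ = 1 := by rcases hσ with rfl | rfl <;> norm_num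
  rwa [h4] at this

theorem exists_cons {s : Multiset ℂ} {n : ℕ} (h : Multiset.card s = n + 1) :
    ∃ a t, s = a ::ₘ t ∧ Multiset.card t = n := by
  obtain ⟨a, ha⟩ := Multiset.card_pos_iff_exists_mem.1 (show 0 < Multiset.card s by omega)
  obtain ⟨t, rfl⟩ := Multiset.exists_cons_of_mem ha
  rw [Multiset.card_cons] at h
  exact ⟨a, t, rfl, by omega⟩

theorem chain (j : ℕ) : ∀ (T L : Multiset ℂ) (x σ : ℂ), O L x σ → ‖x‖ = 1 →
    (∀ c ∈ T, ‖c‖ = 1) → Multiset.card T = 2 * j →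
    O (L + T) (x * T.prod) ((-1) ^ j * σ) ∧ ‖x * T.prod‖ = 1 := by
  induction j with
  | zero =>
    intro T L x σ h hx hT hc
    have : T = 0 := Multiset.card_eq_zero.1 (by omega)
    subst this
    simpa using ⟨h, hx⟩
  | succ j ih =>
    intro T L x σ h hx hT hc
    obtain ⟨a, T1, rfl, h1⟩ := exists_cons (show Multiset.card T = (2 * j + 1) + 1 by omega)
    obtain ⟨b, T2, rfl, h2⟩ := exists_cons h1
    have ha : ‖a‖ = 1 := hT a (by simp)
    have hb : ‖b‖ = 1 := hT b (by simp)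
    have hxa : ‖x * a‖ = 1 := by rw [norm_mul, hx, ha, one_mul]
    have hxab : ‖x * a * b‖ = 1 := by rw [norm_mul, hxa, hb, one_mul]
    have h3 := (h.step a hx).step b hxa
    obtain ⟨h4, h5⟩ := ih T2 _ _ _ h3 hxab (fun c hc => hT c (by simp [hc])) h2
    have e1 : L + {a} + {b} + T2 = L + (a ::ₘ b ::ₘ T2) := by
      rw [add_assoc, add_assoc, Multiset.singleton_add, Multiset.singleton_add]
    have e2 : x * a * b * T2.prod = x * (a ::ₘ b ::ₘ T2).prod := by
      rw [Multiset.prod_cons, Multiset.prod_cons]; ring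
    have e3 : (-1 : ℂ) ^ j * (-σ) = (-1) ^ (j + 1) * σ := by ring
    rw [e1, e2, e3] at h4
    rw [e2] at h5
    exact ⟨h4, h5⟩

theorem pow_cases (j : ℕ) : (-1 : ℂ) ^ j = 1 ∨ (-1 : ℂ) ^ j = -1 := neg_one_pow_eq_or ℂ j

theorem mul_cases {s t : ℂ} (hs : s = 1 ∨ s = -1) (ht : t = 1 ∨ t = -1) :
    s * t = 1 ∨ s * t = -1 := by
  rcases hs with rfl | rfl <;> rcases ht with rfl | rfl <;> norm_num

/-- finishing from an odd state with both signs available -/
theorem finish (j : ℕ) (T L : Multiset ℂ) (x : ℂ) (h : ∀ σ : ℂ, σ = 1 ∨ σ = -1 → O L x σ)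
    (hx : ‖x‖ = 1) (hT : ∀ c ∈ T, ‖c‖ = 1) (hc : Multiset.card T = 2 * j + 1)
    (hp : x * T.prod = 1) : Good (L + T) := by
  obtain ⟨a, T1, rfl, h1⟩ := exists_cons hc
  have hs : -(-1 : ℂ) ^ j = 1 ∨ -(-1 : ℂ) ^ j = -1 := by
    rcases pow_cases j with h | h <;> rw [h] <;> norm_num
  obtain ⟨h2, h3⟩ := chain j T1 L x _ (h _ hs) hx (fun c hc => hT c (by simp [hc])) h1
  have h4 := h2.step a h3
  have e1 : L + T1 + {a} = L + (a ::ₘ T1) := by
    rw [add_assoc, add_comm T1, Multiset.singleton_add]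
  have e2 : x * T1.prod * a = 1 := by
    rw [← hp, Multiset.prod_cons]; ring
  have e3 : -((-1 : ℂ) ^ j * -(-1) ^ j) = 1 := by
    rcases pow_cases j with h | h <;> rw [h] <;> norm_num
  rw [e1, e2, e3] at h4
  exact h4.good

end Pool.Agent.Q115.SUChain
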