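import Mathlib
import Pool.Agent.Q115.SUChain

set_option autoImplicit false
set_option linter.unusedSectionVars false
set_option linter.unusedSimpArgs false

namespace Pool.Agent.Q115.SUBlock

open Matrix Pool.Agent.Q115.SUSpec Pool.Agent.Q115.SUChain Complex

theorem norm_re_im {K : ℂ} (hK : ‖K‖ = 1) : K.re * K.re + K.im * K.im = 1 := by
  have := Complex.normSq_eq_norm_sq K
  rw [hK, Complex.normSq_apply] at this
  rw [this]; norm_num

theorem cayley {K : ℂ} (hK : ‖K‖ = 1) (h : K.im ≠ 0) :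
    K * (((1 + K.re) / K.im : ℝ) - I) = ((1 + K.re) / K.im : ℝ) + I := by
  have h1 := norm_re_im hK
  apply Complex.ext
  · simp only [mul_re, sub_re, ofReal_re, I_re, sub_im, ofReal_im, I_im, add_re, sub_zero,
      add_zero, zero_sub]
    field_simp
    linear_combination h1
  · simp only [mul_im, sub_re, ofReal_re, I_re, sub_im, ofReal_im, I_im, add_im, sub_zero,
      zero_add, zero_sub]
    field_simp
    ring

theorem one_add_re_pos {K : ℂ} (hK : ‖K‖ = 1) (h : K.im ≠ 0) : 0 < 1 + K.re := by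
  have h1 := norm_re_im hK
  have h2 : 0 < K.im * K.im := mul_self_pos.2 h
  nlinarith

theorem exists_w {W : ℂ} (hW : ‖W‖ = 1) (h : W ≠ 1) : ∃ w : ℝ, W * ((w : ℂ) - I) = w + I := by
  by_cases h0 : W.im = 0
  · have h1 := norm_re_im hW
    rw [h0] at h1
    have h2 : W.re = 1 ∨ W.re = -1 := by
      have : (W.re - 1) * (W.re + 1) = 0 := by linear_combination h1
      rcases mul_eq_zero.1 this with h | h
      · left; linarith
      · right; linarith
    rcases h2 with h2 | h2
    · exact absurd (Complex.ext (by simpa using h2) (by simpa using h0)) h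
    · refine ⟨0, ?_⟩
      have : W = -1 := Complex.ext (by simpa using h2) (by simpa using h0)
      rw [this]; simp
  · exact ⟨_, cayley hW h0⟩

theorem sub_I_ne (a : ℝ) : (a : ℂ) - I ≠ 0 := by
  intro h
  have := congrArg Complex.im h
  simp at this

theorem add_I_ne (a : ℝ) : (a : ℂ) + I ≠ 0 := by
  intro h
  have := congrArg Complex.im h
  simp at this

theorem trace_eq {K Q W : ℂ} (hK : ‖K‖ = 1) (hQ : ‖Q‖ = 1) (hW : ‖W‖ = 1) (h1 : 0 < K.im)
    (h2 : Q.im < 0) : ∃ δ : ℂ, (δ = 1 ∨ δ = -1) ∧ ∃ t : ℝ, 0 ≤ t ∧ t ≤ 1 ∧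
      (W⁻¹ * t + δ * (1 - t)) * K + (W⁻¹ * (1 - t) + δ * t) * Q = 1 + δ * W⁻¹ * K * Q := by
  have hKc := cayley hK h1.ne'
  have hQc := cayley hQ h2.ne
  have ha : 0 < (1 + K.re) / K.im := div_pos (one_add_re_pos hK h1.ne') h1
  have hb : (1 + Q.re) / Q.im < 0 := div_neg_of_pos_of_neg (one_add_re_pos hQ h2.ne) h2
  generalize (1 + K.re) / K.im = a at *
  generalize (1 + Q.re) / Q.im = b at *
  have hab : 0 < a - b := by linarith
  have habC : (a : ℂ) - b ≠ 0 := by
    rw [← ofReal_sub]; exact_mod_cast hab.ne'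
  have hKe : K = (a + I) / (a - I) := by rw [eq_div_iff (sub_I_ne a)]; exact hKc
  have hQe : Q = (b + I) / (b - I) := by rw [eq_div_iff (sub_I_ne b)]; exact hQc
  have n1 := sub_I_ne a
  have n2 := sub_I_ne b
  by_cases hW1 : W = 1
  · refine ⟨-1, Or.inr rfl, a / (a - b), by positivity, ?_, ?_⟩
    · rw [div_le_one hab]; linarith
    · rw [hW1, hKe, hQe]
      push_cast
      field_simp
      ring
  · obtain ⟨w, hw⟩ := exists_w hW hW1
    have n3 := sub_I_ne w
    have n4 := add_I_ne w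
    have hWe : W = (w + I) / (w - I) := by rw [eq_div_iff (sub_I_ne w)]; exact hw
    by_cases hmid : b ≤ w ∧ w ≤ a
    · refine ⟨1, Or.inl rfl, (w - b) / (a - b), div_nonneg (by linarith [hmid.1]) hab.le, ?_, ?_⟩
      · rw [div_le_one hab]; linarith [hmid.2]
      · rw [hWe, hKe, hQe]
        push_cast
        field_simp
        ring
    · have hw0 : w ≠ 0 := by
        rintro rfl
        exact hmid ⟨hb.le, ha.le⟩
      have hw0C : (w : ℂ) ≠ 0 := by exact_mod_cast hw0
      refine ⟨-1, Or.inr rfl, a * (w - b) / (w * (a - b)), ?_, ?_, ?_⟩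
      · by_cases hwa : a < w
        · have : 0 < w := by linarith
          have : 0 < w - b := by linarith
          positivity
        · have hwb : w < b := by
            by_contra hcon
            exact hmid ⟨by linarith, by linarith⟩
          apply div_nonneg_of_nonpos
          · nlinarith
          · nlinarith
      · by_cases hwa : a < w
        · have : 0 < w := by linarith
          rw [div_le_one (by positivity)]
          nlinarith
        · have hwb : w < b := by
            by_contra hcon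
            exact hmid ⟨by linarith, by linarith⟩
          rw [div_le_one_of_neg (by nlinarith)]
          nlinarith
      · rw [hWe, hKe, hQe]
        push_cast
        field_simp
        ring

theorem mem_of_sum_prod {s : Multiset ℂ} {u v : ℂ} (hc : Multiset.card s = 2)
    (hp : s.prod = u * v) (hs : s.sum = u + v) : s = {u, v} := by
  obtain ⟨x, y, rfl⟩ := Multiset.card_eq_two.1 hc
  simp only [Multiset.insert_eq_cons, Multiset.prod_cons, Multiset.prod_singleton,
    Multiset.sum_cons, Multiset.sum_singleton] at hp hs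
  have h : (x - u) * (x - v) = 0 := by
    have hy : y = u + v - x := by linear_combination hs
    rw [hy] at hp
    linear_combination -hp
  rcases mul_eq_zero.1 h with h | h
  · have h1 : x = u := by linear_combination h
    subst h1
    have h2 : y = v := by linear_combination hs
    rw [h2]
  · have h1 : x = v := by linear_combination h
    subst h1
    have h2 : y = u := by linear_combination hs
    rw [h2]
    exact Multiset.cons_swap _ _ _

theorem two_block {K Q W : ℂ} (hK : ‖K‖ = 1) (hQ : ‖Q‖ = 1) (hW : ‖W‖ = 1) (h1 : 0 < K.im)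
    (h2 : Q.im < 0) : ∃ δ : ℂ, (δ = 1 ∨ δ = -1) ∧ M {K, Q} {W, δ} {1, δ * W⁻¹ * K * Q} := by
  obtain ⟨δ, hδ, t, ht0, ht1, htr⟩ := trace_eq hK hQ hW h1 h2
  refine ⟨δ, hδ, ?_⟩
  have hδδ : δ * δ = 1 := by rcases hδ with rfl | rfl <;> norm_num
  have hδn : ‖δ‖ = 1 := by rcases hδ with rfl | rfl <;> simp
  have hδc : (starRingEnd ℂ) δ = δ := by rcases hδ with rfl | rfl <;> simp
  have hWc := unimod_inv hW
  set x : ℝ := Real.sqrt t with hx
  set y : ℝ := Real.sqrt (1 - t) with hy
  have hxx : (x : ℂ) * x = t := by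
    rw [← ofReal_mul, Real.mul_self_sqrt ht0]
  have hyy : (y : ℂ) * y = 1 - t := by
    rw [← ofReal_mul, Real.mul_self_sqrt (by linarith)]; push_cast; ring
  set U : Matrix (Fin 2) (Fin 2) ℂ := !![(x : ℂ), -y; (y : ℂ), x] with hU
  have hUu : U ∈ unitaryGroup (Fin 2) ℂ := by
    rw [mem_unitaryGroup_iff]
    ext i j
    fin_cases i <;> fin_cases j <;>
      simp [hU, mul_apply, Fin.sum_univ_two, star_apply, one_apply]
    · linear_combination hxx + hyy
    · ring
    · ring
    · linear_combination hxx + hyy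
  set A : Matrix (Fin 2) (Fin 2) ℂ := U * diagonal ![W, δ] * star U with hA
  have hSpA : Sp A {W, δ} := ⟨U, hUu, ![W, δ], rfl, rfl⟩
  have hAu : A ∈ unitaryGroup (Fin 2) ℂ := hSpA.unitary (by
    intro z hz
    simp only [Multiset.insert_eq_cons, Multiset.mem_cons, Multiset.mem_singleton] at hz
    rcases hz with rfl | rfl
    · exact hW
    · exact hδn)
  have hSpD : Sp (diagonal ![K, Q]) {K, Q} := Sp.diag ![K, Q]
  have hDu : (diagonal ![K, Q] : Matrix (Fin 2) (Fin 2) ℂ) ∈ unitaryGroup (Fin 2) ℂ :=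
    hSpD.unitary (by
      intro z hz
      simp only [Multiset.insert_eq_cons, Multiset.mem_cons, Multiset.mem_singleton] at hz
      rcases hz with rfl | rfl
      · exact hK
      · exact hQ)
  have hBu : star A * diagonal ![K, Q] ∈ unitaryGroup (Fin 2) ℂ :=
    mul_mem (Unitary.star_mem hAu) hDu
  obtain ⟨s, hs, -, hsc⟩ := exists_Sp hBu
  have hAdet : A.det = W * δ := by rw [hSpA.det]; simp
  have hdet : s.prod = 1 * (δ * W⁻¹ * K * Q) := by
    rw [← hs.det, det_mul, star_eq_conjTranspose, det_conjTranspose, hAdet]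
    simp only [det_diagonal, Fin.prod_univ_two, star_mul, RCLike.star_def, hδc, hWc]
    simp
    ring
  have htrace : s.sum = 1 + δ * W⁻¹ * K * Q := by
    rw [← hs.trace, ← htr]
    simp only [trace, diag_apply, Fin.sum_univ_two, mul_apply, star_apply, hA, hU,
      RCLike.star_def]
    simp [hδc, hWc, -map_inv₀]
    linear_combination (W⁻¹ * K + δ * Q) * hxx + (δ * K + W⁻¹ * Q) * hyy
  have hsq := mem_of_sum_prod hsc hdet htrace
  rw [hsq] at hs
  refine ⟨Fin 2, inferInstance, inferInstance, A, star A * diagonal ![K, Q], hSpA, hs, ?_⟩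
  rw [← mul_assoc, mem_unitaryGroup_iff.1 hAu, one_mul]
  exact hSpD

theorem Sp.smul {ι : Type} [Fintype ι] [DecidableEq ι] {A : Matrix ι ι ℂ} {s : Multiset ℂ}
    (h : Sp A s) (c : ℂ) : Sp (c • A) (s.map (fun z => c * z)) := by
  obtain ⟨U, hU, d, rfl, rfl⟩ := h
  refine ⟨U, hU, fun i => c * d i, ?_, by rw [Multiset.map_map]; rfl⟩
  have : diagonal (fun i => c * d i) = c • diagonal d := by
    rw [← diagonal_smul]; rfl
  rw [this, mul_smul_comm, smul_mul_assoc]

theorem M.smul {S X Y : Multiset ℂ} (h : M S X Y) (c : ℂ) :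
    M (S.map (fun z => c * z)) X (Y.map (fun z => c * z)) := by
  obtain ⟨ι, _, _, A, B, h1, h2, h3⟩ := h
  refine ⟨ι, _, _, A, c • B, h1, Sp.smul h2 c, ?_⟩
  rw [mul_smul_comm]
  exact Sp.smul h3 c

/-- the block step -/
theorem E.block {L : Multiset ℂ} {y σ : ℂ} (h : E L y σ) (hσ : σ = 1 ∨ σ = -1) {k l q : ℂ}
    (hy : ‖y‖ = 1) (hk : ‖k‖ = 1) (hl : ‖l‖ = 1) (hq : ‖q‖ = 1) (h1 : 0 < (y * k).im)
    (h2 : (y * q).im < 0) (τ : ℂ) (hτ : τ = 1 ∨ τ = -1) :
    O (L + {k, q} + {l}) (y * k * l * q) τ := by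
  obtain ⟨X, Y, g1, g2, g3⟩ := h
  have hy0 : y ≠ 0 := by rintro rfl; simp at hy
  have hk0 : k ≠ 0 := by rintro rfl; simp at hk
  have hq0 : q ≠ 0 := by rintro rfl; simp at hq
  have hl0 : l ≠ 0 := by rintro rfl; simp at hl
  obtain ⟨δ, hδ, hM⟩ := two_block (K := y * k) (Q := y * q) (W := y * k * l * q)
    (by rw [norm_mul, hy, hk, one_mul]) (by rw [norm_mul, hy, hq, one_mul])
    (by rw [norm_mul, norm_mul, norm_mul, hy, hk, hl, hq]; norm_num) h1 h2
  have hδδ : δ * δ = 1 := by rcases hδ with rfl | rfl <;> norm_num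
  have hδ0 : δ ≠ 0 := by rcases hδ with rfl | rfl <;> norm_num
  have hδn : ‖δ‖ = 1 := by rcases hδ with rfl | rfl <;> simp
  have hδi : δ⁻¹ = δ := by rcases hδ with rfl | rfl <;> norm_num
  have hM2 := M.smul hM y⁻¹
  simp only [Multiset.insert_eq_cons, Multiset.map_cons, Multiset.map_singleton] at hM2
  have e1 : y⁻¹ * (y * k) = k := by field_simp
  have e2 : y⁻¹ * (y * q) = q := by field_simp
  have e3 : y⁻¹ * (δ * (y * k * l * q)⁻¹ * (y * k) * (y * q)) = (δ * l)⁻¹ := by
    rw [mul_inv δ l, hδi]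
    field_simp
  rw [e1, e2, e3, mul_one] at hM2
  have hM3 := (g1.add hM2).add (M.single δ (δ * l))
  have e4 : δ * (δ * l) = l := by rw [← mul_assoc, hδδ, one_mul]
  rw [e4] at hM3
  have hdl : ‖δ * l‖ = 1 := by rw [norm_mul, hδn, hl, one_mul]
  refine ⟨X + {δ, δ}, (Y + {y, y⁻¹}) + {δ * l, (δ * l)⁻¹}, ?_, ?_, ?_⟩
  · have f1 : X + (y * k * l * q) ::ₘ {δ} + {δ} = X + {δ, δ} + {y * k * l * q} := by
      simp only [Multiset.insert_eq_cons, ← Multiset.singleton_add]
      abel
    have f2 : Y + {y} + y⁻¹ ::ₘ {(δ * l)⁻¹} + {δ * l} =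
        (Y + {y, y⁻¹}) + {δ * l, (δ * l)⁻¹} := by
      simp only [Multiset.insert_eq_cons, ← Multiset.singleton_add]
      abel
    rw [f1, f2] at hM3
    exact hM3
  · have := (R2.dbl hδ).add ⟨σ, hσ, g2⟩
    rw [add_comm] at this
    exact this τ hτ
  · exact (g3.add ⟨-1, Or.inr rfl, R.pair hy⟩).add ⟨-1, Or.inr rfl, R.pair hdl⟩

end Pool.Agent.Q115.SUBlock
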