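import Mathlib
import Pool.Agent.Q115.SUBlock

set_option autoImplicit false
set_option linter.unusedSectionVars false
set_option linter.unusedSimpArgs false

namespace Pool.Agent.Q115.SUGood

open Matrix Pool.Agent.Q115.SUSpec Pool.Agent.Q115.SUChain Pool.Agent.Q115.SUBlock Complex

theorem norm_prod {s : Multiset ℂ} (h : ∀ c ∈ s, ‖c‖ = 1) : ‖s.prod‖ = 1 := by
  induction s using Multiset.induction_on with
  | empty => simp
  | cons a s ih =>
    rw [Multiset.prod_cons, norm_mul, h a (by simp), ih (fun c hc => h c (by simp [hc])), one_mul]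

theorem good_odd {S : Multiset ℂ} {j : ℕ} (hS : ∀ c ∈ S, ‖c‖ = 1) (hp : S.prod = 1)
    (hc : Multiset.card S = 2 * j + 1) : Good S := by
  obtain ⟨c, T, rfl, hT⟩ := exists_cons hc
  obtain ⟨h1, -⟩ := chain j T {c} c 1 (O.start c) (hS c (by simp)) (fun x hx => hS x (by simp [hx])) hT
  rw [Multiset.singleton_add, ← Multiset.prod_cons, hp, mul_one] at h1
  exact h1.good (pow_cases j)

theorem good_even {S : Multiset ℂ} {j : ℕ} (hS : ∀ c ∈ S, ‖c‖ = 1) (hp : S.prod = 1)
    (hc : Multiset.card S = 4 * j + 4) : Good S := by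
  obtain ⟨c, T1, rfl, hT1⟩ := exists_cons hc
  obtain ⟨d, T, rfl, hT⟩ := exists_cons hT1
  obtain ⟨h1, h2⟩ := chain (2 * j + 1) T {c} c 1 (O.start c) (hS c (by simp))
    (fun x hx => hS x (by simp [hx])) (by omega)
  have h3 := h1.step d h2
  have e1 : ({c} : Multiset ℂ) + T + {d} = c ::ₘ d ::ₘ T := by
    rw [add_assoc, add_comm T, Multiset.singleton_add, Multiset.singleton_add]
  have e2 : c * T.prod * d = 1 := by
    rw [← hp, Multiset.prod_cons, Multiset.prod_cons]; ring
  have e3 : -((-1 : ℂ) ^ (2 * j + 1) * 1) = 1 := by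
    rw [pow_succ, pow_mul]; norm_num
  rw [e1, e2, e3] at h3
  exact h3.good

theorem good_A {S T : Multiset ℂ} {j r : ℕ} (hS : ∀ c ∈ S, ‖c‖ = 1) (hT : ∀ c ∈ T, ‖c‖ = 1)
    (hcS : Multiset.card S = 2 * j + 1) (hcT : Multiset.card T = 2 * r + 3)
    (hSp : S.prod = 1 ∨ S.prod = -1) (hp : S.prod * T.prod = 1) : Good (S + T) := by
  obtain ⟨c, S1, rfl, hS1⟩ := exists_cons hcS
  obtain ⟨d, T1, rfl, hT1⟩ := exists_cons (show Multiset.card T = (2 * r + 2) + 1 by omega)
  obtain ⟨e, T2, rfl, hT2⟩ := exists_cons (show Multiset.card T1 = (2 * r + 1) + 1 by omega)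
  obtain ⟨h1, h2⟩ := chain j S1 {c} c 1 (O.start c) (hS c (by simp))
    (fun x hx => hS x (by simp [hx])) hS1
  rw [Multiset.singleton_add, ← Multiset.prod_cons, mul_one] at h1
  rw [← Multiset.prod_cons] at h2
  have hd : ‖d‖ = 1 := hT d (by simp)
  have he : ‖e‖ = 1 := hT e (by simp)
  have hcd : ‖(c ::ₘ S1).prod * d‖ = 1 := by rw [norm_mul, h2, hd, one_mul]
  have h3 : ∀ τ : ℂ, τ = 1 ∨ τ = -1 → O (c ::ₘ S1 + {d} + {e}) ((c ::ₘ S1).prod * d * e) τ :=
    fun τ hτ => (O.step' h1 d hSp (pow_cases j) τ hτ).step e hcd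
  have h4 := finish r T2 _ _ h3 (by rw [norm_mul, hcd, he, one_mul])
    (fun x hx => hT x (by simp [hx])) hT2 (by
      rw [← hp, Multiset.prod_cons d, Multiset.prod_cons e]; ring)
  have e1 : c ::ₘ S1 + {d} + {e} + T2 = c ::ₘ S1 + (d ::ₘ e ::ₘ T2) := by
    rw [add_assoc, add_assoc, Multiset.singleton_add, Multiset.singleton_add]
  rwa [e1] at h4

theorem good_B {S T : Multiset ℂ} {k q : ℂ} {j r : ℕ} (hS : ∀ c ∈ S, ‖c‖ = 1)
    (hT : ∀ c ∈ T, ‖c‖ = 1) (hk : ‖k‖ = 1) (hq : ‖q‖ = 1)
    (hcS : Multiset.card S = 2 * j + 2) (hcT : Multiset.card T = 2 * r + 2)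
    (h1 : 0 < (S.prod * k).im) (h2 : (S.prod * q).im < 0)
    (hp : S.prod * k * q * T.prod = 1) : Good (S + {k, q} + T) := by
  obtain ⟨a, S1, rfl, hS1⟩ := exists_cons (show Multiset.card S = (2 * j + 1) + 1 by omega)
  obtain ⟨b, S2, rfl, hS2⟩ := exists_cons hS1
  obtain ⟨l, T1, rfl, hT1⟩ := exists_cons (show Multiset.card T = (2 * r + 1) + 1 by omega)
  obtain ⟨g1, g2⟩ := chain j S2 {a} a 1 (O.start a) (hS a (by simp))
    (fun x hx => hS x (by simp [hx])) hS2
  have g3 := g1.step b g2
  have e1 : ({a} : Multiset ℂ) + S2 + {b} = a ::ₘ b ::ₘ S2 := by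
    rw [add_assoc, add_comm S2, Multiset.singleton_add, Multiset.singleton_add]
  have e2 : a * S2.prod * b = (a ::ₘ b ::ₘ S2).prod := by
    rw [Multiset.prod_cons, Multiset.prod_cons]; ring
  rw [e1, e2] at g3
  have hn : ‖(a ::ₘ b ::ₘ S2).prod‖ = 1 := norm_prod hS
  have hl : ‖l‖ = 1 := hT l (by simp)
  have hs : -((-1 : ℂ) ^ j * 1) = 1 ∨ -((-1 : ℂ) ^ j * 1) = -1 := by
    rcases pow_cases j with h | h <;> rw [h] <;> norm_num
  have g4 := E.block g3 hs hn hk hl hq h1 h2
  have g5 := finish r T1 _ _ g4 (by rw [norm_mul, norm_mul, norm_mul, hn, hk, hl, hq]; norm_num)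
    (fun x hx => hT x (by simp [hx])) hT1 (by
      rw [← hp, Multiset.prod_cons l]; ring)
  have e3 : a ::ₘ b ::ₘ S2 + {k, q} + {l} + T1 = a ::ₘ b ::ₘ S2 + {k, q} + (l ::ₘ T1) := by
    rw [add_assoc _ {l} T1, Multiset.singleton_add]
  rwa [e3] at g5

section window

variable (c : ℕ → ℂ)

/-- values on an interval -/
def g (a b : ℕ) : Multiset ℂ := (Multiset.Ico a b).map c

theorem g_add {a b d : ℕ} (h1 : a ≤ b) (h2 : b ≤ d) : g c a b + g c b d = g c a d := by
  rw [g, g, g, ← Multiset.map_add, Multiset.Ico_add_Ico_eq_Ico h1 h2]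

theorem g_succ (a : ℕ) : g c a (a + 1) = {c a} := by
  have : Multiset.Ico a (a + 1) = {a} := by
    have := Nat.Ico_succ_singleton a
    exact congrArg Finset.val this
  rw [g, this, Multiset.map_singleton]

theorem g_card (a b : ℕ) : Multiset.card (g c a b) = b - a := by
  rw [g, Multiset.card_map]; exact Nat.card_Ico a b

theorem g_norm (hc : ∀ i, ‖c i‖ = 1) (a b : ℕ) : ∀ x ∈ g c a b, ‖x‖ = 1 := by
  intro x hx
  obtain ⟨i, -, rfl⟩ := Multiset.mem_map.1 hx
  exact hc i

theorem unimod_im_zero {z : ℂ} (hz : ‖z‖ = 1) (h : z.im = 0) : z = 1 ∨ z = -1 := by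
  have h1 := norm_re_im hz
  rw [h] at h1
  have : (z.re - 1) * (z.re + 1) = 0 := by linear_combination h1
  rcases mul_eq_zero.1 this with h2 | h2
  · left; exact Complex.ext (by simp; linarith) (by simpa using h)
  · right; exact Complex.ext (by simp; linarith) (by simpa using h)

theorem good_window (hc : ∀ i, ‖c i‖ = 1) {r : ℕ} (hp : (g c 0 (2 * (2 * r + 3))).prod = 1) :
    Good (g c 0 (2 * (2 * r + 3))) := by
  set m := 2 * r + 3 with hm
  by_cases hA : ∃ i, i ≤ m ∧ ((g c i (i + m)).prod).im = 0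
  · obtain ⟨i, him, hi⟩ := hA
    have e1 : g c 0 (2 * m) = g c i (i + m) + (g c 0 i + g c (i + m) (2 * m)) := by
      rw [add_left_comm, g_add c (by omega) (by omega), g_add c (by omega) (by omega)]
    rw [e1] at hp ⊢
    rw [Multiset.prod_add] at hp
    refine good_A (j := r + 1) (r := r) (g_norm c hc _ _) ?_ (by rw [g_card]; omega) ?_
      (unimod_im_zero (norm_prod (g_norm c hc _ _)) hi) hp
    · intro x hx
      rcases Multiset.mem_add.1 hx with h | h
      · exact g_norm c hc _ _ x h
      · exact g_norm c hc _ _ x h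
    · rw [Multiset.card_add, g_card, g_card]; omega
  · push Not at hA
    -- a sign change
    have hW : (g c 0 (0 + m)).prod * (g c m (m + m)).prod = 1 := by
      rw [← hp, ← Multiset.prod_add, zero_add, g_add c (by omega) (by omega)]
      congr 2; ring
    have hWn : ‖(g c 0 (0 + m)).prod‖ = 1 := norm_prod (g_norm c hc _ _)
    have hWm : ((g c m (m + m)).prod).im = -((g c 0 (0 + m)).prod).im := by
      have h0 : (g c 0 (0 + m)).prod ≠ 0 := by intro h; rw [h] at hWn; simp at hWn
      have : (g c m (m + m)).prod = (starRingEnd ℂ) (g c 0 (0 + m)).prod := by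
        rw [unimod_inv hWn]; field_simp; linear_combination hW
      rw [this, Complex.conj_im]
    have hex : ∃ i, i < m ∧ ((g c i (i + m)).prod).im * ((g c (i + 1) (i + 1 + m)).prod).im < 0 := by
      by_contra hcon
      push Not at hcon
      have hpos : ∀ i, i ≤ m → 0 < ((g c 0 (0 + m)).prod).im * ((g c i (i + m)).prod).im := by
        intro i
        induction i with
        | zero =>
          intro _
          exact mul_self_pos.2 (hA 0 (by omega))
        | succ i ih =>
          intro hi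
          have h1 := ih (by omega)
          have h2 := hcon i (by omega)
          have h3 := hA i (by omega)
          have h4 := hA (i + 1) hi
          have h5 : 0 < ((g c i (i + m)).prod).im * ((g c (i + 1) (i + 1 + m)).prod).im :=
            lt_of_le_of_ne h2 (Ne.symm (mul_ne_zero h3 h4))
          have h6 : 0 < ((g c 0 (0 + m)).prod).im * ((g c i (i + m)).prod).im *
              (((g c i (i + m)).prod).im * ((g c (i + 1) (i + 1 + m)).prod).im) := mul_pos h1 h5
          have h7 : 0 < ((g c i (i + m)).prod).im * ((g c i (i + m)).prod).im := mul_self_pos.2 h3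
          by_contra h8
          push Not at h8
          nlinarith
      have h1 := hpos m le_rfl
      rw [hWm] at h1
      nlinarith [mul_self_nonneg ((g c 0 (0 + m)).prod).im]
    obtain ⟨i, him, hi⟩ := hex
    have d1 : g c i (i + m) = {c i} + g c (i + 1) (i + m) := by
      rw [← g_succ, g_add c (by omega) (by omega)]
    have d2 : g c (i + 1) (i + 1 + m) = g c (i + 1) (i + m) + {c (i + m)} := by
      rw [← g_succ c (i + m), g_add c (by omega) (by omega)]
      congr 1; omega
    rw [d1, d2, Multiset.prod_add, Multiset.prod_add, Multiset.prod_singleton,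
      Multiset.prod_singleton, mul_comm (c i)] at hi
    have e1 : g c 0 (2 * m) = g c (i + 1) (i + m) + {c i, c (i + m)} +
        (g c 0 i + g c (i + m + 1) (2 * m)) := by
      have e2 : ({c i, c (i + m)} : Multiset ℂ) = g c i (i + 1) + g c (i + m) (i + m + 1) := by
        rw [g_succ, g_succ]; rfl
      have e3 : g c 0 (2 * m) = g c 0 i + g c i (i + 1) + g c (i + 1) (i + m) +
          g c (i + m) (i + m + 1) + g c (i + m + 1) (2 * m) := by
        rw [g_add c (by omega) (by omega), g_add c (by omega) (by omega),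
          g_add c (by omega) (by omega), g_add c (by omega) (by omega)]
      rw [e2, e3]; abel
    have e1' : g c 0 (2 * m) = g c (i + 1) (i + m) + {c (i + m), c i} +
        (g c 0 i + g c (i + m + 1) (2 * m)) := by
      rw [e1]; congr 2; exact Multiset.cons_swap _ _ _
    have hT : ∀ x ∈ g c 0 i + g c (i + m + 1) (2 * m), ‖x‖ = 1 := by
      intro x hx
      rcases Multiset.mem_add.1 hx with h | h
      · exact g_norm c hc _ _ x h
      · exact g_norm c hc _ _ x h
    have hTc : Multiset.card (g c 0 i + g c (i + m + 1) (2 * m)) = 2 * r + 2 := by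
      rw [Multiset.card_add, g_card, g_card]; omega
    have hp2 := hp
    rw [e1, Multiset.prod_add, Multiset.prod_add] at hp2
    simp only [Multiset.insert_eq_cons, Multiset.prod_cons, Multiset.prod_singleton] at hp2
    rcases mul_neg_iff.1 hi with ⟨h1, h2⟩ | ⟨h1, h2⟩
    · rw [e1]
      exact good_B (j := r) (r := r) (g_norm c hc _ _) hT (hc _) (hc _)
        (by rw [g_card]; omega) hTc h1 h2 (by rw [← hp2]; ring)
    · rw [e1']
      exact good_B (j := r) (r := r) (g_norm c hc _ _) hT (hc _) (hc _)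
        (by rw [g_card]; omega) hTc h2 h1 (by rw [← hp2]; ring)

end window

theorem exists_fun (S : Multiset ℂ) (hS : ∀ c ∈ S, ‖c‖ = 1) :
    ∃ c : ℕ → ℂ, (∀ i, ‖c i‖ = 1) ∧ S = g c 0 (Multiset.card S) := by
  obtain ⟨L, rfl⟩ := Quot.exists_rep S
  refine ⟨fun i => L.getD i 1, ?_, ?_⟩
  · intro i
    change ‖L.getD i 1‖ = 1
    rcases Nat.lt_or_ge i L.length with h | h
    · rw [List.getD_eq_getElem _ _ h]
      exact hS _ (by simp)
    · rw [List.getD_eq_default _ _ h]; simp
  · change (L : Multiset ℂ) = ((Multiset.Ico 0 L.length).map _)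
    have h1 : Multiset.Ico 0 L.length = (List.range L.length : Multiset ℕ) := by
      have := Finset.range_eq_Ico (L.length)
      have h2 := congrArg Finset.val this
      exact h2.symm
    rw [h1, Multiset.map_coe]
    congr 1
    apply List.ext_getElem
    · simp
    · intro i h1 h2
      rw [List.getElem_map, List.getElem_range]
      exact (List.getD_eq_getElem _ _ h1).symm

theorem good (S : Multiset ℂ) (hS : ∀ c ∈ S, ‖c‖ = 1) (hp : S.prod = 1)
    (hn : 3 ≤ Multiset.card S) : Good S := by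
  rcases Nat.even_or_odd' (Multiset.card S) with ⟨m, hm | hm⟩
  · rcases Nat.even_or_odd' m with ⟨j, hj | hj⟩
    · exact good_even (j := j - 1) hS hp (by omega)
    · obtain ⟨c, hc, hSc⟩ := exists_fun S hS
      obtain ⟨r, hr⟩ : ∃ r, Multiset.card S = 2 * (2 * r + 3) := ⟨j - 1, by omega⟩
      rw [hSc, hr]
      rw [hSc, hr] at hp
      exact good_window c hc hp
  · exact good_odd hS hp hm

end Pool.Agent.Q115.SUGood
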